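import Pool.Agent.K7.H77.Dem.Coh

set_option autoImplicit false
set_option linter.unusedSectionVars false

/-!
# The dualizing character of `⟨x, y, z | x² y⁵ z = z y⟩` modulo `8`
-/

namespace Pool.Agent.K7.H77.Dem

/-- the affine group over `ℤ/8` -/
structure Aff where
  fst : ZMod 8
  snd : (ZMod 8)ˣ

@[ext] lemma Aff.ext' {a b : Aff} (h : a.fst = b.fst) (h' : a.snd = b.snd) : a = b := by
  cases a; cases b; simp_all

instance : Mul Aff := ⟨fun a b => ⟨a.fst + a.snd * b.fst, a.snd * b.snd⟩⟩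
instance : One Aff := ⟨⟨0, 1⟩⟩
instance : Inv Aff := ⟨fun a => ⟨-(((a.snd⁻¹ : (ZMod 8)ˣ) : ZMod 8) * a.fst), a.snd⁻¹⟩⟩

@[simp] lemma Aff.mul_fst (a b : Aff) : (a * b).fst = a.fst + a.snd * b.fst := rfl
@[simp] lemma Aff.mul_snd (a b : Aff) : (a * b).snd = a.snd * b.snd := rfl
@[simp] lemma Aff.one_fst : (1 : Aff).fst = 0 := rfl
@[simp] lemma Aff.one_snd : (1 : Aff).snd = 1 := rfl
@[simp] lemma Aff.inv_fst (a : Aff) : (a⁻¹).fst = -(((a.snd⁻¹ : (ZMod 8)ˣ) : ZMod 8) * a.fst) := rfl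
@[simp] lemma Aff.inv_snd (a : Aff) : (a⁻¹).snd = a.snd⁻¹ := rfl

instance : Group Aff := Group.ofLeftAxioms
    (fun a b c => by
      apply Aff.ext'
      · simp only [Aff.mul_fst, Aff.mul_snd, Units.val_mul]; ring
      · simp [mul_assoc])
    (fun a => by apply Aff.ext' <;> simp)
    (fun a => by apply Aff.ext' <;> simp)

instance : TopologicalSpace Aff := ⊥

instance : DiscreteTopology Aff := ⟨rfl⟩

lemma card_Aff : Nat.card Aff = 2 ^ 5 := by
  let e : Aff ≃ ZMod 8 × (ZMod 8)ˣ :=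
    ⟨fun a => (a.fst, a.snd), fun a => ⟨a.1, a.2⟩, fun a => rfl, fun a => rfl⟩
  rw [Nat.card_congr e, Nat.card_prod, Nat.card_zmod, Nat.card_eq_fintype_card,
    ZMod.card_units_eq_totient]
  decide

/-- the unit `5` -/
def u5 : (ZMod 8)ˣ := ⟨5, 5, by decide, by decide⟩

lemma exists_aff (v : Fin 3 → ZMod 8) : ∃ ψ : GG →* Aff, Continuous ψ ∧
    ∀ j, ψ (gen j) = ⟨v j, ![-1, 1, u5] j⟩ := by
  refine exists_hom_GG ⟨5, card_Aff⟩ (fun j => ⟨v j, ![-1, 1, u5] j⟩) ?_
  apply Aff.ext'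
  · have h5 : ((u5 : (ZMod 8)ˣ) : ZMod 8) = 5 := rfl
    simp [h5]
    ring
  · simp

/-- the dualizing character modulo `8` -/
noncomputable def th (g : GG) : ZMod 8 := ((Classical.choose (exists_aff 0) g).snd : (ZMod 8)ˣ)

lemma cont_snd : Continuous fun a : Aff => ((a.snd : (ZMod 8)ˣ) : ZMod 8) :=
  continuous_of_discreteTopology

lemma cont_fst : Continuous fun a : Aff => a.fst := continuous_of_discreteTopology

lemma ch_th : Ch th := by
  have h := Classical.choose_spec (exists_aff 0)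
  refine ⟨cont_snd.comp h.1, ?_, fun g k => ?_⟩
  · simp [th]
  · simp [th]

lemma th_gen (j : Fin 3) : th (gen j) = ((![-1, 1, u5] j : (ZMod 8)ˣ) : ZMod 8) := by
  have h := (Classical.choose_spec (exists_aff 0)).2 j
  simp only [th, h]

/-- crossed homomorphisms with given values on the generators -/
lemma exists_crossed (v : Fin 3 → ZMod 8) : ∃ c : GG → ZMod 8, Continuous c ∧
    (∀ g h, df th c g h = 0) ∧ ∀ j, c (gen j) = v j := by
  obtain ⟨ψ, hψ, h⟩ := exists_aff v
  have h0 := Classical.choose_spec (exists_aff 0)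
  let _ : TopologicalSpace (ZMod 8)ˣ := ⊥
  have : DiscreteTopology (ZMod 8)ˣ := ⟨rfl⟩
  let pr : Aff →* (ZMod 8)ˣ := ⟨⟨Aff.snd, rfl⟩, fun a b => rfl⟩
  have hpr : Continuous pr := continuous_of_discreteTopology
  have hth : ∀ g, th g = ((ψ g).snd : (ZMod 8)ˣ) := by
    intro g
    have := hom_ext (ψ := pr.comp ψ) (ψ' := pr.comp (Classical.choose (exists_aff 0)))
      (hpr.comp hψ) (hpr.comp h0.1) (fun j => by
        change (ψ (gen j)).snd = (Classical.choose (exists_aff 0) (gen j)).snd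
        rw [h, h0.2]) g
    exact congrArg Units.val this.symm
  refine ⟨fun g => (ψ g).fst, cont_fst.comp hψ, fun g k => ?_, fun j => by beta_reduce; rw [h]⟩
  simp only [df, hth, map_mul, Aff.mul_fst]
  ring

lemma vg_th : VG th := by
  intro s hs c hc hd
  obtain ⟨c', hc', h1, h2⟩ := exists_crossed fun j => c (gen j)
  refine ⟨c', hc', ?_, fun g h => by rw [h1, mul_zero]⟩
  have hmul : ∀ g h, 2 * (s * (c' (g * h) - c (g * h))) =
      2 * (s * (c' g - c g)) + th g * (2 * (s * (c' h - c h))) := by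
    intro g h
    have e1 := h1 g h
    have e2 := hd g h
    simp only [df] at e1 e2
    linear_combination -2 * s * e1 + e2
  let K : Subgroup GG :=
    { carrier := {g | 2 * (s * (c' g - c g)) = 0}
      mul_mem' := by
        intro g h hg hh
        change 2 * (s * (c' (g * h) - c (g * h))) = 0
        rw [hmul, show 2 * (s * (c' g - c g)) = 0 from hg, show 2 * (s * (c' h - c h)) = 0 from hh]
        simp
      one_mem' := by
        change 2 * (s * (c' 1 - c 1)) = 0
        have := hmul 1 1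
        rw [ch_th.one, mul_one] at this
        linear_combination -this
      inv_mem' := by
        intro g hg
        change 2 * (s * (c' g⁻¹ - c g⁻¹)) = 0
        have e1 := hmul g⁻¹ g
        have e2 := hmul 1 1
        rw [ch_th.one, mul_one] at e2
        rw [inv_mul_cancel, show 2 * (s * (c' g - c g)) = 0 from hg] at e1
        linear_combination -e1 - e2 }
  have hcl : IsClosed (K : Set GG) := by
    have h3 : Continuous fun g => ((c' g, c g) : ZMod 8 × ZMod 8) := hc'.prodMk hc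
    have h4 : Continuous fun g => 2 * (s * (c' g - c g)) :=
      (continuous_of_discreteTopology (f := fun p : ZMod 8 × ZMod 8 => 2 * (s * (p.1 - p.2)))).comp h3
    exact (isClosed_discrete ({0} : Set (ZMod 8))).preimage h4
  have hK : K = ⊤ := eq_top_of_gen hcl fun j => by
    change 2 * (s * (c' (gen j) - c (gen j))) = 0
    rw [h2]
    simp
  intro g
  have : g ∈ K := by rw [hK]; trivial
  exact this

lemma th_surj (x z : ZMod 8) (h : x * z = 1) : ∃ g, th g = x := by
  have h5 : ((u5 : (ZMod 8)ˣ) : ZMod 8) = 5 := rfl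
  have e0 : th (gen 0) = 7 := by rw [th_gen]; decide
  have e2 : th (gen 2) = 5 := by rw [th_gen]; exact h5
  have hx : x = 1 ∨ x = 7 ∨ x = 5 ∨ x = 3 := by revert x z; decide
  rcases hx with rfl | rfl | rfl | rfl
  · exact ⟨1, ch_th.one⟩
  · exact ⟨_, e0⟩
  · exact ⟨_, e2⟩
  · exact ⟨gen 0 * gen 2, by rw [ch_th.mul, e0, e2]; decide⟩

/-- **`GG` is not self-similar of index two.** -/
theorem not_selfSimilar_GG : ¬ IsSelfSimilarOfIndex 2 GG :=
  not_selfSimilar fun {_} ha h0 φ hφ =>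
    exists_invariant P2_GG PD_GG ch_th vg_th th_surj ha h0 φ hφ

/-- `GG` is a pro-`2` group. -/
theorem isProP_GG : IsProP 2 GG :=
  ⟨inferInstance, inferInstance, inferInstance, fun N _ hN => P2_GG N hN⟩

lemma cup_ne_zero_iff {G : Type*} [Group G] [TopologicalSpace G] [IsTopologicalGroup G]
    (a b : H1 2 G) : cup a b ≠ 0 ↔ ¬ Bd (fun g h => a.1 g * b.1 h) := by
  rw [not_iff_not]
  unfold cup
  rw [Submodule.Quotient.mk_eq_zero]
  change (cupCocycle a b).1 ∈ B2 2 G ↔ _
  constructor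
  · rintro ⟨e, he, h⟩
    refine ⟨e, he, fun g k => ?_⟩
    have := h g k
    simp only [cupCocycle] at this
    beta_reduce
    rw [this]
    grind
  · rintro ⟨e, he, h⟩
    refine ⟨e, he, fun g k => ?_⟩
    have := h g k
    simp only [cupCocycle]
    beta_reduce at this
    rw [this]
    grind

/-- `GG` is a Demushkin group. -/
theorem isDemushkin_GG : IsDemushkin 2 GG := by
  have hx : ∀ x : ZMod 2, x = 0 ∨ x = 1 := by decide
  refine ⟨isProP_GG, ⟨Set.range gen, Set.finite_range gen, closure_gen⟩, ?_, fun a ha => ?_,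
    fun b hb => ?_⟩
  · rw [finrank_eq_one_iff']
    obtain ⟨a, ha, ha1⟩ := exists_hm ![1, 0, 0]
    have hne : ∃ g, a g ≠ 0 := ⟨gen 0, by rw [ha1]; decide⟩
    obtain ⟨b, hb, hb1⟩ := PD_GG.nd a ha hne
    refine ⟨cup ⟨a, ha⟩ ⟨b, hb⟩, (cup_ne_zero_iff _ _).2 hb1, fun w => ?_⟩
    obtain ⟨f, rfl⟩ := Submodule.Quotient.mk_surjective _ w
    let f' : GG → GG → ZMod 2 := fun g h => f.1 (g, h)
    have hf' : Zc f' := ⟨f.2.1, f.2.2⟩
    by_cases hb2 : Bd f'
    · refine ⟨0, ?_⟩
      rw [zero_smul, eq_comm, Submodule.Quotient.mk_eq_zero]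
      change f.1 ∈ B2 2 GG
      obtain ⟨e, he, h⟩ := hb2
      refine ⟨e, he, fun g k => ?_⟩
      have := h g k
      change f' g k = _
      rw [this]
      grind
    · refine ⟨1, ?_⟩
      rw [one_smul]
      unfold cup
      rw [Submodule.Quotient.eq]
      change (cupCocycle ⟨a, ha⟩ ⟨b, hb⟩).1 - f.1 ∈ B2 2 GG
      obtain ⟨e, he, h⟩ := PD_GG.one _ _ (Zc.cup ha hb) hf' hb1 hb2
      refine ⟨e, he, fun g k => ?_⟩
      have := h g k
      change a g * b k - f' g k = _
      beta_reduce at this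
      grind
  · have hne : ∃ g, a.1 g ≠ 0 := by
      by_contra hcon
      push Not at hcon
      exact ha (Subtype.ext (funext hcon))
    obtain ⟨b, hb, hb1⟩ := PD_GG.nd a.1 a.2 hne
    exact ⟨⟨b, hb⟩, (cup_ne_zero_iff _ _).2 hb1⟩
  · have hne : ∃ g, b.1 g ≠ 0 := by
      by_contra hcon
      push Not at hcon
      exact hb (Subtype.ext (funext hcon))
    obtain ⟨a, ha, ha1⟩ := PD_GG.nd b.1 b.2 hne
    exact ⟨⟨a, ha⟩, (cup_ne_zero_iff _ _).2 fun h => ha1 (h.comm ha b.2)⟩

/-- `GG` has rank three. -/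
theorem d_GG : d 2 GG = 3 := by
  have h : Nat.card (H1 2 GG) = 2 ^ 3 := PD_GG.card
  have hfin : Finite (H1 2 GG) := Nat.finite_of_card_ne_zero (by rw [h]; norm_num)
  have h1 := Module.natCard_eq_pow_finrank (K := ZMod 2) (V := H1 2 GG)
  rw [h, Nat.card_zmod] at h1
  exact (Nat.pow_right_injective le_rfl h1).symm

end Pool.Agent.K7.H77.Dem
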