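import Pool.Agent.K7.H77.Dem.Open

set_option autoImplicit false
set_option linter.unusedSectionVars false

/-!
# Closed subgroups which are not open, and commuting elements
-/

namespace Pool.Agent.K7.H77.Dem

lemma Hm.comp {G G' : Type*} [Group G] [TopologicalSpace G] [Group G'] [TopologicalSpace G']
    {a : G' → ZMod 2} (ha : Hm a) (φ : G →* G') (hφ : Continuous φ) : Hm (fun g => a (φ g)) :=
  ⟨ha.1.comp hφ, fun g h => by simp [ha.2]⟩

lemma Bd.comp {G G' : Type*} [Group G] [TopologicalSpace G] [Group G'] [TopologicalSpace G']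
    {f : G' → G' → ZMod 2} (hf : Bd f) (φ : G →* G') (hφ : Continuous φ) :
    Bd (fun g h => f (φ g) (φ h)) := by
  obtain ⟨e, he, h⟩ := hf
  exact ⟨fun g => e (φ g), he.comp hφ, fun g k => by simp [h]⟩

section Closed

variable {G : Type*} [Group G] [TopologicalSpace G] [IsTopologicalGroup G]
variable [CompactSpace G] [TotallyDisconnectedSpace G]

/-- A homomorphism on a subgroup extends to an open subgroup. -/
lemma exists_extension {L : Subgroup G} {a : L → ZMod 2} (ha : Hm a) :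
    ∃ (U : Subgroup G) (hLU : L ≤ U) (b : U → ZMod 2), IsOpen (U : Set G) ∧ Hm b ∧
      ∀ l : L, b (Subgroup.inclusion hLU l) = a l := by
  have hV : IsOpen ((kerS ha : Subgroup L) : Set L) := by
    have : ((kerS ha : Subgroup L) : Set L) = a ⁻¹' {0} := rfl
    rw [this]
    exact (isOpen_discrete _).preimage ha.1
  obtain ⟨W, hn, hW, hWV⟩ := exists_normal_trace L _ hV
  have h0 : ∀ (l : G) (hl : l ∈ L), l ∈ W → a ⟨l, hl⟩ = 0 := fun l hl hw => hWV hw
  have hdec : ∀ g : (L ⊔ W : Subgroup G), ∃ l : L, (l : G)⁻¹ * g ∈ W := by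
    rintro ⟨g, hg⟩
    obtain ⟨l, hl, w, hw, rfl⟩ := Subgroup.mem_sup_of_normal_right.1 hg
    exact ⟨⟨l, hl⟩, by simpa using hw⟩
  choose σ hσ using hdec
  have hwd : ∀ (g : (L ⊔ W : Subgroup G)) (l : L), (l : G)⁻¹ * g ∈ W → a (σ g) = a l := by
    intro g l hl
    have h1 : ((l⁻¹ * σ g : L) : G) ∈ W := by
      have h2 := W.mul_mem hl (W.inv_mem (hσ g))
      have e : (l : G)⁻¹ * g * ((σ g : G)⁻¹ * g)⁻¹ = (l : G)⁻¹ * σ g := by group
      rw [e] at h2
      simpa using h2
    have h3 : a (l⁻¹ * σ g) = 0 := h0 _ (l⁻¹ * σ g).2 h1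
    have h4 : a (σ g) = a l + a (l⁻¹ * σ g) := by rw [← ha.2]; simp
    rw [h4, h3, add_zero]
  have hmul : ∀ g h : (L ⊔ W : Subgroup G), a (σ (g * h)) = a (σ g) + a (σ h) := by
    intro g h
    rw [← ha.2]
    refine hwd _ _ ?_
    have h1 := hn.conj_mem _ (hσ g) (σ h : G)⁻¹
    have h2 := W.mul_mem h1 (hσ h)
    have e : (σ h : G)⁻¹ * ((σ g : G)⁻¹ * g) * ((σ h : G)⁻¹)⁻¹ * ((σ h : G)⁻¹ * h) =
        ((σ g * σ h : L) : G)⁻¹ * ((g * h : (L ⊔ W : Subgroup G)) : G) := by
      simp only [Subgroup.coe_mul]; group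
    rw [e] at h2
    exact h2
  refine ⟨L ⊔ W, le_sup_left, fun g => a (σ g), Subgroup.isOpen_mono le_sup_right hW,
    ⟨?_, hmul⟩, fun l => hwd _ _ ?_⟩
  · refine continuous_of_vanish hmul (W.subgroupOf (L ⊔ W)) (hW.preimage continuous_subtype_val)
      fun w hw => ?_
    rw [hwd w 1 (by simpa using Subgroup.mem_subgroupOf.1 hw), ha.one]
  · simp [W.one_mem]

/-- In a closed subgroup which is not open all cup products vanish. -/
theorem PD.vanish (h2 : P2 G) (h : PD G 3) {L : Subgroup G} (hL : IsClosed (L : Set G))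
    (hno : ¬ IsOpen (L : Set G)) {a b : L → ZMod 2} (ha : Hm a) (hb : Hm b) :
    Bd (fun x y => a x * b y) := by
  obtain ⟨U1, hLU1, a1, hU1, ha1, ha2⟩ := exists_extension ha
  obtain ⟨U2, hLU2, b1, hU2, hb1, hb2⟩ := exists_extension hb
  set U := U1 ⊓ U2 with hUdef
  have hU : IsOpen (U : Set G) := by
    rw [hUdef, Subgroup.coe_inf]
    exact hU1.inter hU2
  have hLU : L ≤ U := le_inf hLU1 hLU2
  have hinc1 : Continuous (Subgroup.inclusion (inf_le_left : U ≤ U1)) :=
    Continuous.subtype_mk continuous_subtype_val _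
  have hinc2 : Continuous (Subgroup.inclusion (inf_le_right : U ≤ U2)) :=
    Continuous.subtype_mk continuous_subtype_val _
  have hinc : Continuous (Subgroup.inclusion hLU) :=
    Continuous.subtype_mk continuous_subtype_val _
  have hA := ha1.comp _ hinc1
  have hB := hb1.comp _ hinc2
  set A : U → ZMod 2 := fun g => a1 (Subgroup.inclusion (inf_le_left : U ≤ U1) g)
  set B : U → ZMod 2 := fun g => b1 (Subgroup.inclusion (inf_le_right : U ≤ U2) g)
  have hAL : ∀ l : L, A (Subgroup.inclusion hLU l) = a l := fun l => ha2 l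
  have hBL : ∀ l : L, B (Subgroup.inclusion hLU l) = b l := fun l => hb2 l
  have hPD := h.open h2 U hU
  have hcl : IsClosed ((L.subgroupOf U : Subgroup U) : Set U) := hL.preimage continuous_subtype_val
  have hne : L.subgroupOf U ≠ ⊤ := by
    intro heq
    rw [Subgroup.subgroupOf_eq_top] at heq
    exact hno (le_antisymm hLU heq ▸ hU)
  have : CompactSpace U := isCompact_iff_compactSpace.1 (Subgroup.isClosed_of_isOpen U hU).isCompact
  obtain ⟨c, hc, hc0, hcL⟩ := exists_hom (h2.sub U) hcl hne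
  obtain ⟨b0, hb0, hb0'⟩ := hPD.nd c hc hc0
  have hn : ¬ Bd (fun g h => b0 g * c h) := fun h => hb0' (h.comm hb0 hc)
  by_cases hAB : Bd (fun g h => A g * B h)
  · have := hAB.comp _ hinc
    simpa only [hAL, hBL] using this
  · have h3 := (hPD.one _ _ (Zc.cup hA hB) (Zc.cup hb0 hc) hAB hn).comp _ hinc
    refine h3.imp fun e he => ⟨he.1, fun x y => ?_⟩
    rw [← he.2 x y]
    have h4 : c (Subgroup.inclusion hLU y) = 0 := hcL _ (by
      rw [Subgroup.mem_subgroupOf]; exact y.2)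
    beta_reduce
    rw [h4, hAL, hBL, mul_zero, add_zero]

/-- A homomorphism is determined by its values on topological generators. -/
lemma hm_eq_zero {L : Subgroup G} (hL : IsClosed (L : Set G)) (S : Set G)
    (hLS : L ≤ (Subgroup.closure S).topologicalClosure) {a : L → ZMod 2} (ha : Hm a)
    (h0 : ∀ s ∈ S, ∃ hs : s ∈ L, a ⟨s, hs⟩ = 0) (g : L) : a g = 0 := by
  have hcl : IsClosed (((kerS ha).map L.subtype : Subgroup G) : Set G) := by
    rw [Subgroup.coe_map]
    have h1 : IsClosed ((kerS ha : Subgroup L) : Set L) := by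
      have : ((kerS ha : Subgroup L) : Set L) = a ⁻¹' {0} := rfl
      rw [this]
      exact (isClosed_discrete _).preimage ha.1
    exact hL.isClosedEmbedding_subtypeVal.isClosedMap _ h1
  have h1 : L ≤ (kerS ha).map L.subtype := by
    refine hLS.trans (Subgroup.topologicalClosure_minimal _ ?_ hcl)
    rw [Subgroup.closure_le]
    intro s hs
    obtain ⟨hs', h2⟩ := h0 s hs
    exact ⟨⟨s, hs'⟩, h2, rfl⟩
  obtain ⟨x, hx, hxg⟩ := h1 g.2
  have : x = g := Subtype.ext hxg
  rw [← this]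
  exact hx

/-- Two commuting elements of `G`: one of them lies in the closed subgroup generated by the
other. -/
theorem PD.commute (h2 : P2 G) (h : PD G 3) {k k' : G} (hk : k * k' = k' * k) :
    k ∈ (Subgroup.zpowers k').topologicalClosure ∨
      k' ∈ (Subgroup.zpowers k).topologicalClosure := by
  by_contra hcon
  push Not at hcon
  obtain ⟨hn1, hn2⟩ := hcon
  set S : Set G := {k, k'} with hS
  set L := (Subgroup.closure S).topologicalClosure with hLdef
  have hkL : k ∈ L := Subgroup.le_topologicalClosure _ (Subgroup.subset_closure (by simp [hS]))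
  have hkL' : k' ∈ L := Subgroup.le_topologicalClosure _ (Subgroup.subset_closure (by simp [hS]))
  have hL : IsClosed (L : Set G) := Subgroup.isClosed_topologicalClosure _
  have : CompactSpace L := isCompact_iff_compactSpace.1 hL.isCompact
  -- homomorphisms are determined by the values at `k` and `k'`
  have hdet : ∀ {a : L → ZMod 2}, Hm a → a ⟨k, hkL⟩ = 0 → a ⟨k', hkL'⟩ = 0 → ∀ g, a g = 0 := by
    intro a ha h1 h3
    refine hm_eq_zero hL S le_rfl ha fun s hs => ?_
    rcases hs with rfl | hs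
    · exact ⟨hkL, h1⟩
    · have hs' : s = k' := hs
      subst hs'
      exact ⟨hkL', h3⟩
  have hx : ∀ x : ZMod 2, x ≠ 0 → x = 1 := by decide
  have key : ∀ {x y : G} (hxL : x ∈ L) (hyL : y ∈ L), x ∉ (Subgroup.zpowers y).topologicalClosure →
      (∀ {a : L → ZMod 2}, Hm a → a ⟨x, hxL⟩ = 0 → a ⟨y, hyL⟩ = 0 → ∀ g, a g = 0) →
      ∃ a : L → ZMod 2, Hm a ∧ a ⟨x, hxL⟩ = 1 ∧ a ⟨y, hyL⟩ = 0 := by
    intro x y hxL hyL hxy hd
    have hcl : IsClosed (((Subgroup.zpowers y).topologicalClosure.subgroupOf L : Subgroup L) :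
        Set L) := (Subgroup.isClosed_topologicalClosure _).preimage continuous_subtype_val
    have hne : (Subgroup.zpowers y).topologicalClosure.subgroupOf L ≠ ⊤ := by
      intro heq
      rw [Subgroup.subgroupOf_eq_top] at heq
      exact hxy (heq hxL)
    obtain ⟨a, ha, ⟨g, hg⟩, ha0⟩ := exists_hom (h2.sub L) hcl hne
    have h3 : a ⟨y, hyL⟩ = 0 := ha0 _ (by
      rw [Subgroup.mem_subgroupOf]
      exact Subgroup.le_topologicalClosure _ (Subgroup.mem_zpowers y))
    exact ⟨a, ha, hx _ fun h4 => hg (hd ha h4 h3 g), h3⟩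
  obtain ⟨a, ha, ha1, ha2⟩ := key hkL hkL' hn1 hdet
  obtain ⟨b, hb, hb1, hb2⟩ := key hkL' hkL hn2 (fun ha h1 h2 => hdet ha h2 h1)
  by_cases hopen : IsOpen (L : Set G)
  · have hPD := h.open h2 L hopen
    obtain ⟨j, hj⟩ := h2 L hopen
    have hpos : 1 ≤ L.index := by rw [hj]; exact Nat.one_le_two_pow
    have hinj : Function.Injective (fun a : {a : L → ZMod 2 // Hm a} =>
        (a.1 ⟨k, hkL⟩, a.1 ⟨k', hkL'⟩)) := by
      rintro ⟨x, hx1⟩ ⟨y, hy1⟩ hxy
      apply Subtype.ext
      funext g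
      have hxy1 : x ⟨k, hkL⟩ = y ⟨k, hkL⟩ := congrArg Prod.fst hxy
      have hxy2 : x ⟨k', hkL'⟩ = y ⟨k', hkL'⟩ := congrArg Prod.snd hxy
      have := hdet (hx1.add hy1) (by rw [hxy1]; grind) (by rw [hxy2]; grind) g
      beta_reduce at this
      grind
    have h3 := Nat.card_le_card_of_injective _ hinj
    rw [hPD.card, Nat.card_prod, Nat.card_zmod] at h3
    have h4 : 2 ^ 3 ≤ 2 ^ (L.index + 2) := Nat.pow_le_pow_right (by norm_num) (by omega)
    omega
  · obtain ⟨e, he, h3⟩ := h.vanish h2 hL hopen ha hb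
    have h4 := h3 ⟨k, hkL⟩ ⟨k', hkL'⟩
    have h5 := h3 ⟨k', hkL'⟩ ⟨k, hkL⟩
    have h6 : (⟨k, hkL⟩ : L) * ⟨k', hkL'⟩ = ⟨k', hkL'⟩ * ⟨k, hkL⟩ := Subtype.ext hk
    rw [h6] at h4
    simp only [ha1, ha2, hb1, hb2] at h4 h5
    grind

end Closed

end Pool.Agent.K7.H77.Dem
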