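import Pool.Agent.K7.H77.Dem.Grp

set_option autoImplicit false
set_option linter.unusedSectionVars false

/-!
# Cohomology of the pro-`2` group `⟨x, y, z | x² y⁵ z = z y⟩`
-/

namespace Pool.Agent.K7.H77.Dem

/-- the trace of a 2-cochain along the relation `x x y y y y y z = z y` -/
def tr {G : Type*} [Group G] (x y z : G) (f : G → G → ZMod 2) : ZMod 2 :=
  f x x + f (x * x) y + f (x * x * y) y + f (x * x * y * y) y + f (x * x * y * y * y) y +
    f (x * x * y * y * y * y) y + f (x * x * y * y * y * y * y) z + f z y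

/-- extensions of groups by `ℤ/2` -/
structure Ext (Q : Type) [Group Q] (f : Q → Q → ZMod 2) where
  fst : Q
  snd : ZMod 2

section Ext

variable {Q : Type} [Group Q] {f : Q → Q → ZMod 2}

@[ext] lemma Ext.ext' {a b : Ext Q f} (h : a.fst = b.fst) (h' : a.snd = b.snd) : a = b := by
  cases a; cases b; simp_all

instance : Mul (Ext Q f) := ⟨fun a b => ⟨a.fst * b.fst, a.snd + b.snd + f a.fst b.fst⟩⟩
instance : One (Ext Q f) := ⟨⟨1, f 1 1⟩⟩
instance : Inv (Ext Q f) := ⟨fun a => ⟨a.fst⁻¹, a.snd + f a.fst⁻¹ a.fst + f 1 1⟩⟩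

@[simp] lemma Ext.mul_fst (a b : Ext Q f) : (a * b).fst = a.fst * b.fst := rfl
@[simp] lemma Ext.mul_snd (a b : Ext Q f) : (a * b).snd = a.snd + b.snd + f a.fst b.fst := rfl
@[simp] lemma Ext.one_fst : (1 : Ext Q f).fst = 1 := rfl
@[simp] lemma Ext.one_snd : (1 : Ext Q f).snd = f 1 1 := rfl
@[simp] lemma Ext.inv_fst (a : Ext Q f) : (a⁻¹).fst = a.fst⁻¹ := rfl
@[simp] lemma Ext.inv_snd (a : Ext Q f) : (a⁻¹).snd = a.snd + f a.fst⁻¹ a.fst + f 1 1 := rfl

/-- the group structure -/
@[implicit_reducible]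
def extGroup (hf : ∀ g h k, f g h + f (g * h) k = f h k + f g (h * k)) : Group (Ext Q f) :=
  Group.ofLeftAxioms
    (fun a b c => by
      apply Ext.ext'
      · simp [mul_assoc]
      · have := hf a.fst b.fst c.fst
        simp only [Ext.mul_snd, Ext.mul_fst]
        linear_combination this)
    (fun a => by
      apply Ext.ext'
      · simp
      · have := hf 1 1 a.fst
        simp only [Ext.mul_snd, Ext.one_snd, Ext.one_fst, one_mul] at *
        grind)
    (fun a => by
      apply Ext.ext'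
      · simp
      · simp only [Ext.mul_snd, Ext.inv_snd, Ext.inv_fst, Ext.one_snd]
        grind)

end Ext

/-- Continuous functions on `G × G` are invariant under an open normal subgroup. -/
lemma exists_invariant_subgroup {G : Type*} [Group G] [TopologicalSpace G] [IsTopologicalGroup G]
    [CompactSpace G] [TotallyDisconnectedSpace G] {f : G → G → ZMod 2}
    (hf : Continuous fun x : G × G => f x.1 x.2) :
    ∃ W : Subgroup G, W.Normal ∧ IsOpen (W : Set G) ∧
      ∀ g h, ∀ w ∈ W, ∀ w' ∈ W, f (g * w) (h * w') = f g h := by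
  have key : ∀ F : G → G × G → ZMod 2, Continuous (fun x : G × (G × G) => F x.1 x.2) →
      (∀ x, F 1 x = 0) → ∃ O : Set G, IsOpen O ∧ 1 ∈ O ∧ ∀ w ∈ O, ∀ x, F w x = 0 := by
    intro F hF h1
    have hcl : IsClosed {x : G × (G × G) | F x.1 x.2 ≠ 0} :=
      (isClosed_discrete ({0}ᶜ : Set (ZMod 2))).preimage hF
    have hpr := isClosedMap_fst_of_compactSpace _ hcl
    refine ⟨_, hpr.isOpen_compl, ?_, ?_⟩
    · rintro ⟨⟨w, x⟩, hx, rfl⟩
      exact hx (h1 x)
    · intro w hw x
      by_contra hne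
      exact hw ⟨(w, x), hne, rfl⟩
  obtain ⟨O1, hO1, h11, h12⟩ := key (fun w x => f (x.1 * w) x.2 + f x.1 x.2) (by
    have e1 : Continuous fun x : G × (G × G) => ((x.2.1 * x.1, x.2.2) : G × G) := by fun_prop
    have e2 : Continuous fun x : G × (G × G) => ((x.2.1, x.2.2) : G × G) := by fun_prop
    exact (hf.comp e1).add (hf.comp e2)) (fun x => by rw [mul_one]; grind)
  obtain ⟨O2, hO2, h21, h22⟩ := key (fun w x => f x.1 (x.2 * w) + f x.1 x.2) (by
    have e1 : Continuous fun x : G × (G × G) => ((x.2.1, x.2.2 * x.1) : G × G) := by fun_prop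
    have e2 : Continuous fun x : G × (G × G) => ((x.2.1, x.2.2) : G × G) := by fun_prop
    exact (hf.comp e1).add (hf.comp e2)) (fun x => by rw [mul_one]; grind)
  obtain ⟨W, hW⟩ := ProfiniteGrp.exist_openNormalSubgroup_sub_open_nhds_of_one (hO1.inter hO2)
    ⟨h11, h21⟩
  refine ⟨W.toSubgroup, W.isNormal', W.isOpen', fun g h w hw w' hw' => ?_⟩
  have e1 := h12 w (hW hw).1 (g, h * w')
  have e2 := h22 w' (hW hw').2 (g, h)
  simp only at e1 e2
  grind

/-- A cocycle with trace zero is a coboundary. -/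
lemma bd_of_tr {f : GG → GG → ZMod 2} (hf : Zc f) (h : tr (gen 0) (gen 1) (gen 2) f = 0) :
    Bd f := by
  obtain ⟨W, hn, hW, hinv⟩ := exists_invariant_subgroup hf.1
  obtain ⟨k, hk⟩ := P2_GG W hW
  have hfin : Finite (GG ⧸ W) := finite_quot hW
  -- the cocycle on the finite quotient
  let π : GG →* GG ⧸ W := QuotientGroup.mk' W
  let fb : GG ⧸ W → GG ⧸ W → ZMod 2 := fun q q' => f q.out q'.out
  have hfb : ∀ g h, fb (π g) (π h) = f g h := by
    intro g h
    obtain ⟨w, hw⟩ := QuotientGroup.mk_out_eq_mul W g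
    obtain ⟨w', hw'⟩ := QuotientGroup.mk_out_eq_mul W h
    have h1 := hinv g h w w.2 w' w'.2
    rw [← hw, ← hw'] at h1
    exact h1
  have hfbc : ∀ g h k, fb g h + fb (g * h) k = fb h k + fb g (h * k) := by
    intro g h k
    obtain ⟨g, rfl⟩ := QuotientGroup.mk'_surjective W g
    obtain ⟨h, rfl⟩ := QuotientGroup.mk'_surjective W h
    obtain ⟨k, rfl⟩ := QuotientGroup.mk'_surjective W k
    have := hf.2 g h k
    rw [← hfb, ← hfb, ← hfb, ← hfb, map_mul, map_mul] at this
    exact this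
  let _ : Group (Ext (GG ⧸ W) fb) := extGroup hfbc
  let _ : TopologicalSpace (Ext (GG ⧸ W) fb) := ⊥
  have : DiscreteTopology (Ext (GG ⧸ W) fb) := ⟨rfl⟩
  let eq : Ext (GG ⧸ W) fb ≃ (GG ⧸ W) × ZMod 2 :=
    ⟨fun a => (a.fst, a.snd), fun a => ⟨a.1, a.2⟩, fun a => rfl, fun a => rfl⟩
  have hcard : ∃ j : ℕ, Nat.card (Ext (GG ⧸ W) fb) = 2 ^ j := by
    refine ⟨k + 1, ?_⟩
    rw [Nat.card_congr eq, Nat.card_prod, Nat.card_zmod, pow_succ]
    congr 1
  have hrel := gen_rel
  obtain ⟨ψ, hψ, hψg⟩ := exists_hom_GG hcard (fun j => ⟨π (gen j), 0⟩) (by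
    apply Ext.ext'
    · change π (gen 0) * π (gen 0) * π (gen 1) * π (gen 1) * π (gen 1) * π (gen 1) * π (gen 1) *
        π (gen 2) = π (gen 2) * π (gen 1)
      simp only [← map_mul]
      rw [hrel]
    · change (((((((0 + 0 + fb (π (gen 0)) (π (gen 0))) + 0 + fb (π (gen 0) * π (gen 0)) (π (gen 1))) +
        0 + fb (π (gen 0) * π (gen 0) * π (gen 1)) (π (gen 1))) + 0 +
        fb (π (gen 0) * π (gen 0) * π (gen 1) * π (gen 1)) (π (gen 1))) + 0 +
        fb (π (gen 0) * π (gen 0) * π (gen 1) * π (gen 1) * π (gen 1)) (π (gen 1))) + 0 +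
        fb (π (gen 0) * π (gen 0) * π (gen 1) * π (gen 1) * π (gen 1) * π (gen 1)) (π (gen 1))) + 0 +
        fb (π (gen 0) * π (gen 0) * π (gen 1) * π (gen 1) * π (gen 1) * π (gen 1) * π (gen 1))
          (π (gen 2))) = 0 + 0 + fb (π (gen 2)) (π (gen 1))
      simp only [← map_mul, hfb]
      simp only [tr] at h
      have h2 : (2 : ZMod 2) = 0 := by decide
      linear_combination h - f (gen 2) (gen 1) * h2)
  -- the first component
  have hfst : ∀ g, (ψ g).fst = π g := by
    let _ : TopologicalSpace (GG ⧸ W) := ⊥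
    have : DiscreteTopology (GG ⧸ W) := ⟨rfl⟩
    let pr : Ext (GG ⧸ W) fb →* GG ⧸ W := ⟨⟨Ext.fst, rfl⟩, fun a b => rfl⟩
    have hπ : Continuous π := by
      refine IsLocallyConstant.continuous ((IsLocallyConstant.iff_exists_open _).2 fun g => ?_)
      refine ⟨(fun x => g⁻¹ * x) ⁻¹' (W : Set GG), hW.preimage (continuous_const_mul g⁻¹), by
        simp [W.one_mem], fun x hx => ?_⟩
      exact (QuotientGroup.eq.2 hx).symm
    intro g
    exact hom_ext (ψ := pr.comp ψ) (ψ' := π)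
      ((continuous_of_discreteTopology (f := pr)).comp hψ) hπ (fun j => by
        change (ψ (gen j)).fst = π (gen j)
        rw [hψg]) g
  refine ⟨fun g => (ψ g).snd, (continuous_of_discreteTopology (f := Ext.snd)).comp hψ,
    fun g h => ?_⟩
  have h1 : (ψ (g * h)).snd = (ψ g).snd + (ψ h).snd + fb (ψ g).fst (ψ h).fst := by
    rw [map_mul]; rfl
  rw [hfst, hfst, hfb] at h1
  beta_reduce
  rw [h1]
  grind

/-- Coboundaries have trace zero. -/
lemma tr_of_bd {f : GG → GG → ZMod 2} (h : Bd f) : tr (gen 0) (gen 1) (gen 2) f = 0 := by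
  obtain ⟨e, -, he⟩ := h
  simp only [tr, he]
  rw [gen_rel]
  grind

lemma tr_cup {a b : GG → ZMod 2} (ha : Hm a) :
    tr (gen 0) (gen 1) (gen 2) (fun g h => a g * b h) =
      a (gen 0) * b (gen 0) + a (gen 1) * b (gen 2) + a (gen 2) * b (gen 1) := by
  simp only [tr, ha.2]
  grind

/-- Homomorphisms to `ℤ/2` with given values on the generators. -/
lemma exists_hm (v : Fin 3 → ZMod 2) : ∃ a : GG → ZMod 2, Hm a ∧ ∀ j, a (gen j) = v j := by
  let _ : TopologicalSpace (Multiplicative (ZMod 2)) := ⊥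
  have : DiscreteTopology (Multiplicative (ZMod 2)) := ⟨rfl⟩
  obtain ⟨ψ, hψ, h⟩ := exists_hom_GG (E := Multiplicative (ZMod 2)) ⟨1, by simp⟩
    (fun j => Multiplicative.ofAdd (v j)) (by
      simp only [← ofAdd_add]
      congr 1
      grind)
  refine ⟨fun g => (ψ g).toAdd,
    ⟨(continuous_of_discreteTopology (f := Multiplicative.toAdd)).comp hψ, fun g h => by simp⟩,
    fun j => by simp [h]⟩

lemma hm_ext {a b : GG → ZMod 2} (ha : Hm a) (hb : Hm b) (h : ∀ j, a (gen j) = b (gen j)) :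
    a = b := by
  have hK : kerS (ha.add hb) = ⊤ := eq_top_of_gen (isClosed_kerS (ha.add hb)) fun j => by
    rw [mem_kerS, h]
    grind
  funext g
  have h1 : g ∈ kerS (ha.add hb) := by rw [hK]; trivial
  rw [mem_kerS] at h1
  grind

/-- `GG` satisfies Poincaré duality. -/
theorem PD_GG : PD GG 3 := by
  have hx : ∀ x : ZMod 2, x = 0 ∨ x = 1 := by decide
  have htr : ∀ {f : GG → GG → ZMod 2}, Zc f → ¬ Bd f → tr (gen 0) (gen 1) (gen 2) f = 1 :=
    fun hf h => (hx _).resolve_left fun h0 => h (bd_of_tr hf h0)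
  refine ⟨?_, fun f f' hf hf' h1 h2 => ?_, fun a ha h0 => ?_⟩
  · let e : {a : GG → ZMod 2 // Hm a} ≃ (Fin 3 → ZMod 2) :=
      Equiv.ofBijective (fun a j => a.1 (gen j)) ⟨fun a b hab =>
        Subtype.ext (hm_ext a.2 b.2 fun j => congrFun hab j), fun v => by
          obtain ⟨a, ha, h⟩ := exists_hm v
          exact ⟨⟨a, ha⟩, funext h⟩⟩
    rw [Nat.card_congr e]
    simp
  · refine bd_of_tr (hf.add hf') ?_
    have e1 := htr hf h1
    have e2 := htr hf' h2
    simp only [tr] at *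
    grind
  · have hne : ∃ j, a (gen j) ≠ 0 := by
      by_contra hcon
      push Not at hcon
      obtain ⟨g, hg⟩ := h0
      have := hm_ext ha Hm.zero hcon
      exact hg (congrFun this g)
    have key : ∀ b : GG → ZMod 2, Hm b →
        a (gen 0) * b (gen 0) + a (gen 1) * b (gen 2) + a (gen 2) * b (gen 1) ≠ 0 →
        ∃ b, Hm b ∧ ¬ Bd (fun g h => a g * b h) := by
      intro b hb h1
      refine ⟨b, hb, fun h2 => h1 ?_⟩
      rw [← tr_cup ha]
      exact tr_of_bd h2
    obtain ⟨j, hj⟩ := hne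
    have hj1 := (hx _).resolve_left hj
    have hj3 : ∀ j : Fin 3, j = 0 ∨ j = 1 ∨ j = 2 := by decide
    rcases hj3 j with rfl | rfl | rfl
    · obtain ⟨b, hb, h1⟩ := exists_hm ![1, 0, 0]
      refine key b hb ?_
      have e0 := h1 0
      have e1 := h1 1
      have e2 := h1 2
      simp at e0 e1 e2
      rw [e0, e1, e2, hj1]
      simp
    · obtain ⟨b, hb, h1⟩ := exists_hm ![0, 0, 1]
      refine key b hb ?_
      have e0 := h1 0
      have e1 := h1 1
      have e2 := h1 2
      simp at e0 e1 e2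
      rw [e0, e1, e2, hj1]
      simp
    · obtain ⟨b, hb, h1⟩ := exists_hm ![0, 1, 0]
      refine key b hb ?_
      have e0 := h1 0
      have e1 := h1 1
      have e2 := h1 2
      simp at e0 e1 e2
      rw [e0, e1, e2, hj1]
      simp

end Pool.Agent.K7.H77.Dem
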