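import Mathlib

set_option autoImplicit false

/-!
# Pro-`p` groups, Demushkin groups and self-similar actions on the `p`-ary tree

The definitions used by `MP_33d618_al`.
-/

namespace Pool.Agent.K7.H77.Dem

section Def

variable (p : ℕ) (G : Type*) [Group G] [TopologicalSpace G] [IsTopologicalGroup G]

/-- `H¹(G, 𝔽_p)`: the continuous homomorphisms from `G` to `𝔽_p`. -/
def H1 : Submodule (ZMod p) (G → ZMod p) where
  carrier := {a | Continuous a ∧ ∀ g h, a (g * h) = a g + a h}
  add_mem' := by
    intro a b ha hb
    exact ⟨ha.1.add hb.1, fun g h => by simp only [Pi.add_apply, ha.2, hb.2]; ring⟩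
  zero_mem' := ⟨continuous_const, fun g h => by simp⟩
  smul_mem' := by
    intro r a ha
    exact ⟨ha.1.const_smul r, fun g h => by simp only [Pi.smul_apply, ha.2, smul_eq_mul]; ring⟩

/-- The continuous 2-cocycles of `G` with values in the trivial module `𝔽_p`. -/
def Z2 : Submodule (ZMod p) (G × G → ZMod p) where
  carrier := {f | Continuous f ∧
    ∀ g h k, f (g, h) + f (g * h, k) = f (h, k) + f (g, h * k)}
  add_mem' := by
    intro a b ha hb
    refine ⟨ha.1.add hb.1, fun g h k => ?_⟩
    simp only [Pi.add_apply]
    linear_combination ha.2 g h k + hb.2 g h k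
  zero_mem' := ⟨continuous_const, fun g h k => by simp⟩
  smul_mem' := by
    intro r a ha
    refine ⟨ha.1.const_smul r, fun g h k => ?_⟩
    simp only [Pi.smul_apply, smul_eq_mul]
    linear_combination r * ha.2 g h k

/-- The coboundaries of continuous functions `G → 𝔽_p`. -/
def B2 : Submodule (ZMod p) (G × G → ZMod p) where
  carrier := {f | ∃ e : G → ZMod p, Continuous e ∧ ∀ g h, f (g, h) = e g + e h - e (g * h)}
  add_mem' := by
    rintro a b ⟨e, he, h1⟩ ⟨e', he', h2⟩
    refine ⟨e + e', he.add he', fun g h => ?_⟩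
    simp only [Pi.add_apply, h1, h2]
    ring
  zero_mem' := ⟨0, continuous_const, fun g h => by simp⟩
  smul_mem' := by
    rintro r a ⟨e, he, h1⟩
    refine ⟨r • e, he.const_smul r, fun g h => ?_⟩
    simp only [Pi.smul_apply, smul_eq_mul, h1]
    ring

/-- `H²(G, 𝔽_p)`: continuous 2-cocycles modulo coboundaries of continuous functions. -/
abbrev H2 : Type _ := Z2 p G ⧸ (B2 p G).submoduleOf (Z2 p G)

variable {p G} in
/-- The cocycle `(g, h) ↦ a(g) b(h)`. -/
def cupCocycle (a b : H1 p G) : Z2 p G :=
  ⟨fun x => a.1 x.1 * b.1 x.2,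
    (a.2.1.comp continuous_fst).mul (b.2.1.comp continuous_snd), fun g h k => by
      simp only [a.2.2, b.2.2]; ring⟩

variable {p G} in
/-- The cup product `H¹(G, 𝔽_p) × H¹(G, 𝔽_p) → H²(G, 𝔽_p)`. -/
def cup (a b : H1 p G) : H2 p G := Submodule.Quotient.mk (cupCocycle a b)

/-- `d(G) = dim H¹(G, 𝔽_p)`. -/
noncomputable def d : ℕ := Module.finrank (ZMod p) (H1 p G)

/-- `G` is a pro-`p` group: it is compact, Hausdorff and totally disconnected, and the index of every
open normal subgroup is a power of `p`. -/
structure IsProP : Prop where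
  compact : CompactSpace G
  t2 : T2Space G
  totallyDisconnected : TotallyDisconnectedSpace G
  index : ∀ N : Subgroup G, N.Normal → IsOpen (N : Set G) → ∃ k : ℕ, N.index = p ^ k

/-- `G` is a Demushkin group: it is a topologically finitely generated pro-`p` group, `H²(G, 𝔽_p)` has
dimension one and the cup product on `H¹(G, 𝔽_p)` is non-degenerate on both sides. -/
structure IsDemushkin : Prop where
  proP : IsProP p G
  fg : ∃ S : Set G, S.Finite ∧ (Subgroup.closure S).topologicalClosure = ⊤
  one : Module.finrank (ZMod p) (H2 p G) = 1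
  left : ∀ a : H1 p G, a ≠ 0 → ∃ b : H1 p G, cup a b ≠ 0
  right : ∀ b : H1 p G, b ≠ 0 → ∃ a : H1 p G, cup a b ≠ 0

/-- `G` is self-similar of index `p`: there is an action of `G` on the rooted tree of the finite words
over `{0, …, p - 1}`, by automorphisms of the rooted tree (it preserves the length of words and the
relation between a word and its extensions by one letter), which is self-similar, faithful, continuous
(the stabiliser of every word is open) and transitive on the words of length one. -/
def IsSelfSimilarOfIndex : Prop :=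
  ∃ act : G → List (Fin p) → List (Fin p),
    (∀ w, act 1 w = w) ∧ (∀ g h w, act (g * h) w = act g (act h w)) ∧
    (∀ g w, (act g w).length = w.length) ∧
    (∀ g w x, ∃ y, act g (w ++ [x]) = act g w ++ [y]) ∧
    (∀ g x, ∃ y h, ∀ w, act g (x :: w) = y :: act h w) ∧
    (∀ g, (∀ w, act g w = w) → g = 1) ∧
    (∀ w, IsOpen {g | act g w = w}) ∧
    (∀ x y : Fin p, ∃ g, act g [x] = [y])

end Def

end Pool.Agent.K7.H77.Dem
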