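import Pool.Agent.K7.H77.Dem.Tree

set_option autoImplicit false
set_option linter.unusedSectionVars false

/-!
# The pro-`2` group with generators `x, y, z` and the relation `x² y⁵ z = z y`
-/

namespace Pool.Agent.K7.H77.Dem

open FreeGroup in
/-- the relator -/
def relr : FreeGroup (Fin 3) :=
  of 0 * of 0 * of 1 * of 1 * of 1 * of 1 * of 1 * of 2 * (of 2 * of 1)⁻¹

/-- the finite quotients of the presented group whose order is a power of two -/
structure Idx where
  N : Subgroup (FreeGroup (Fin 3))
  normal : N.Normal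
  index : ∃ k : ℕ, N.index = 2 ^ k
  rel : relr ∈ N

instance (i : Idx) : i.N.Normal := i.normal

/-- the quotient, as a discrete group -/
def Qt (i : Idx) : Type := FreeGroup (Fin 3) ⧸ i.N

instance (i : Idx) : Group (Qt i) := inferInstanceAs (Group (FreeGroup (Fin 3) ⧸ i.N))

instance (i : Idx) : TopologicalSpace (Qt i) := ⊥

instance (i : Idx) : DiscreteTopology (Qt i) := ⟨rfl⟩

lemma card_Qt (i : Idx) : ∃ k : ℕ, Nat.card (Qt i) = 2 ^ k := i.index

instance (i : Idx) : Finite (Qt i) := by
  obtain ⟨k, hk⟩ := card_Qt i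
  exact Nat.finite_of_card_ne_zero (by rw [hk]; positivity)

/-- the projection to a finite quotient -/
def prj (i : Idx) : FreeGroup (Fin 3) →* Qt i := QuotientGroup.mk' i.N

/-- the product of the finite quotients -/
abbrev Pr : Type := ∀ i : Idx, Qt i

/-- the diagonal map -/
def diag : FreeGroup (Fin 3) →* Pr := MonoidHom.pi prj

/-- the pro-`2` completion of the presented group, as a subgroup of the product -/
def GS : Subgroup Pr := diag.range.topologicalClosure

/-- the pro-`2` group `⟨x, y, z | x² y⁵ z = z y⟩` -/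
abbrev GG : Type := ↥GS

lemma isClosed_GS : IsClosed (GS : Set Pr) := Subgroup.isClosed_topologicalClosure _

instance : CompactSpace GG := isCompact_iff_compactSpace.1 isClosed_GS.isCompact

/-- the generators -/
def gen (j : Fin 3) : GG := ⟨diag (FreeGroup.of j), Subgroup.le_topologicalClosure _ ⟨_, rfl⟩⟩

/-- the projection of `GG` to a finite quotient -/
def pj (i : Idx) : GG →* Qt i := (Pi.evalMonoidHom _ i).comp GS.subtype

lemma continuous_pj (i : Idx) : Continuous (pj i) := (continuous_apply i).comp continuous_subtype_val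

lemma pj_gen (i : Idx) (j : Fin 3) : pj i (gen j) = prj i (FreeGroup.of j) := rfl

lemma gen_rel : gen 0 * gen 0 * gen 1 * gen 1 * gen 1 * gen 1 * gen 1 * gen 2 = gen 2 * gen 1 := by
  apply Subtype.ext
  funext i
  have h : prj i relr = 1 := (QuotientGroup.eq_one_iff _).2 i.rel
  simp only [relr, map_mul, map_inv, mul_inv_eq_one] at h
  exact h

/-- `GG` is topologically generated by `x, y, z`. -/
lemma closure_gen : (Subgroup.closure (Set.range gen)).topologicalClosure = ⊤ := by
  rw [Subgroup.eq_top_iff']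
  intro g
  have hcl : IsClosed (((Subgroup.closure (Set.range gen)).topologicalClosure : Subgroup GG) :
      Set GG) := Subgroup.isClosed_topologicalClosure _
  -- the closure in the product
  have h1 : GS ≤ ((Subgroup.closure (Set.range gen)).topologicalClosure).map GS.subtype := by
    refine Subgroup.topologicalClosure_minimal _ ?_ ?_
    · rw [MonoidHom.range_eq_map, ← FreeGroup.closure_range_of, MonoidHom.map_closure,
        Subgroup.closure_le]
      rintro _ ⟨_, ⟨j, rfl⟩, rfl⟩
      exact ⟨gen j, Subgroup.le_topologicalClosure _ (Subgroup.subset_closure ⟨j, rfl⟩), rfl⟩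
    · rw [Subgroup.coe_map]
      exact isClosed_GS.isClosedEmbedding_subtypeVal.isClosedMap _ hcl
  obtain ⟨x, hx, hxg⟩ := h1 g.2
  have : x = g := Subtype.ext hxg
  rw [← this]
  exact hx

lemma eq_top_of_dense {G : Type*} [Group G] [TopologicalSpace G] [IsTopologicalGroup G] {S : Set G}
    (hS : (Subgroup.closure S).topologicalClosure = ⊤) {K : Subgroup G}
    (hK : IsClosed (K : Set G)) (h : S ⊆ K) : K = ⊤ := by
  rw [← top_le_iff, ← hS]
  refine Subgroup.topologicalClosure_minimal _ ?_ hK
  rwa [Subgroup.closure_le]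

/-- A closed subgroup containing the generators is everything. -/
lemma eq_top_of_gen {K : Subgroup GG} (hK : IsClosed (K : Set GG)) (h : ∀ j, gen j ∈ K) :
    K = ⊤ := by
  refine eq_top_of_dense (G := GG) closure_gen hK ?_
  rintro _ ⟨j, rfl⟩
  exact h j

/-- Continuous homomorphisms to discrete groups are determined by the images of the generators. -/
lemma hom_ext {E : Type*} [Group E] [TopologicalSpace E] [DiscreteTopology E] {ψ ψ' : GG →* E}
    (h : Continuous ψ) (h' : Continuous ψ') (hg : ∀ j, ψ (gen j) = ψ' (gen j)) (g : GG) :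
    ψ g = ψ' g := by
  have h1 : MonoidHom.eqLocus ψ ψ' = ⊤ := eq_top_of_gen (isClosed_eq h h') hg
  have h2 : g ∈ MonoidHom.eqLocus ψ ψ' := by rw [h1]; trivial
  exact h2

/-- The universal property. -/
lemma exists_hom_GG {E : Type*} [Group E] [TopologicalSpace E] [DiscreteTopology E]
    (hE : ∃ k : ℕ, Nat.card E = 2 ^ k) (X : Fin 3 → E)
    (hX : X 0 * X 0 * X 1 * X 1 * X 1 * X 1 * X 1 * X 2 = X 2 * X 1) :
    ∃ ψ : GG →* E, Continuous ψ ∧ ∀ j, ψ (gen j) = X j := by
  obtain ⟨k, hk⟩ := hE
  have hfin : Finite E := Nat.finite_of_card_ne_zero (by rw [hk]; positivity)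
  let f : FreeGroup (Fin 3) →* E := FreeGroup.lift X
  have hidx : ∃ m : ℕ, f.ker.index = 2 ^ m := by
    rw [Subgroup.index_ker]
    have h1 : Nat.card f.range ∣ 2 ^ k := hk ▸ Subgroup.card_subgroup_dvd_card f.range
    obtain ⟨m, _, hm⟩ := (Nat.dvd_prime_pow Nat.prime_two).1 h1
    exact ⟨m, hm⟩
  let i : Idx := ⟨f.ker, inferInstance, hidx, by
    rw [MonoidHom.mem_ker]
    simp only [relr, map_mul, map_inv, mul_inv_eq_one, f, FreeGroup.lift_apply_of]
    exact hX⟩
  let q : Qt i →* E := QuotientGroup.kerLift f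
  refine ⟨q.comp (pj i), ?_, fun j => ?_⟩
  · exact (continuous_of_discreteTopology (f := q)).comp (continuous_pj i)
  · change QuotientGroup.kerLift f (QuotientGroup.mk (FreeGroup.of j)) = X j
    rw [QuotientGroup.kerLift_mk]
    simp [f]

/-- `GG` is a pro-`2` group. -/
lemma P2_Pr : P2 Pr := by
  classical
  intro V hV
  have h1 : (V : Set Pr) ∈ nhds (1 : Pr) := hV.mem_nhds V.one_mem
  rw [nhds_pi, Filter.mem_pi] at h1
  obtain ⟨I, hI, t, ht, hsub⟩ := h1
  have hfinI : Finite I := hI
  let f : Pr →* ∀ i : I, Qt i.1 := MonoidHom.pi fun i => Pi.evalMonoidHom _ i.1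
  have hle : f.ker ≤ V := by
    intro x hx
    apply hsub
    intro i hi
    have h2 : x i = 1 := congrFun (show f x = 1 from hx) ⟨i, hi⟩
    rw [h2]
    exact mem_of_mem_nhds (ht i)
  have h3 : V.index ∣ f.ker.index := Subgroup.index_dvd_of_le hle
  rw [Subgroup.index_ker] at h3
  have h4 : Nat.card f.range ∣ Nat.card (∀ i : I, Qt i.1) := Subgroup.card_subgroup_dvd_card _
  have : Fintype I := Fintype.ofFinite _
  rw [Nat.card_pi] at h4
  choose k hk using fun i : I => card_Qt i.1
  simp only [hk, Finset.prod_pow_eq_pow_sum] at h4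
  obtain ⟨m, _, hm⟩ := (Nat.dvd_prime_pow Nat.prime_two).1 (h3.trans h4)
  exact ⟨m, hm⟩

lemma P2_GG : P2 GG := P2_Pr.sub GS

end Pool.Agent.K7.H77.Dem
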