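import Pool.Agent.K7.H77.Dem.Def

set_option autoImplicit false
set_option linter.unusedSectionVars false

/-!
# Subgroups of index two

Explicit transfer maps for a subgroup of index two, for continuous cochains with values in `ℤ/2`.
-/

namespace Pool.Agent.K7.H77.Dem

section Basic

variable {G : Type*} [Group G] [TopologicalSpace G]

/-- continuous homomorphisms to `ℤ/2` -/
def Hm (a : G → ZMod 2) : Prop := Continuous a ∧ ∀ g h, a (g * h) = a g + a h

/-- continuous 2-cocycles with values in `ℤ/2` -/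
def Zc (f : G → G → ZMod 2) : Prop := Continuous (fun x : G × G => f x.1 x.2) ∧
  ∀ g h k, f g h + f (g * h) k = f h k + f g (h * k)

/-- coboundaries -/
def Bd (f : G → G → ZMod 2) : Prop :=
  ∃ e : G → ZMod 2, Continuous e ∧ ∀ g h, f g h = e g + e h + e (g * h)

lemma Hm.one {a : G → ZMod 2} (ha : Hm a) : a 1 = 0 := by
  have := ha.2 1 1
  rw [mul_one] at this
  grind

lemma Hm.inv {a : G → ZMod 2} (ha : Hm a) (g : G) : a g⁻¹ = a g := by
  have := ha.2 g g⁻¹
  rw [mul_inv_cancel, ha.one] at this
  grind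

lemma Hm.add {a b : G → ZMod 2} (ha : Hm a) (hb : Hm b) : Hm (fun g => a g + b g) :=
  ⟨ha.1.add hb.1, fun g h => by beta_reduce; rw [ha.2, hb.2]; ring⟩

lemma Hm.zero : Hm (fun _ : G => (0 : ZMod 2)) := ⟨continuous_const, fun g h => by simp⟩

lemma Zc.cup {a b : G → ZMod 2} (ha : Hm a) (hb : Hm b) : Zc (fun g h => a g * b h) :=
  ⟨(ha.1.comp continuous_fst).mul (hb.1.comp continuous_snd), fun g h k => by
    beta_reduce; rw [ha.2, hb.2]; ring⟩

lemma Zc.add {f f' : G → G → ZMod 2} (hf : Zc f) (hf' : Zc f') : Zc (fun g h => f g h + f' g h) :=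
  ⟨hf.1.add hf'.1, fun g h k => by linear_combination hf.2 g h k + hf'.2 g h k⟩

lemma Bd.add {f f' : G → G → ZMod 2} (hf : Bd f) (hf' : Bd f') : Bd (fun g h => f g h + f' g h) := by
  obtain ⟨e, he, h⟩ := hf
  obtain ⟨e', he', h'⟩ := hf'
  exact ⟨fun g => e g + e' g, he.add he', fun g k => by beta_reduce; rw [h, h']; ring⟩

lemma Bd.of_add {f f' : G → G → ZMod 2} (h : Bd (fun g h => f g h + f' g h)) (hf : Bd f) :
    Bd f' := by
  have := h.add hf
  refine this.imp fun e he => ⟨he.1, fun g k => ?_⟩
  have := he.2 g k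
  grind

/-- cup products are commutative up to coboundaries -/
lemma Bd.comm {a b : G → ZMod 2} (ha : Hm a) (hb : Hm b)
    (h : Bd (fun g h => a g * b h)) : Bd (fun g h => b g * a h) := by
  have h2 : Bd (fun g h => a g * b h + b g * a h) :=
    ⟨fun g => a g * b g, ha.1.mul hb.1, fun g k => by beta_reduce; rw [ha.2, hb.2]; grind⟩
  exact h2.of_add h

/-- `G` satisfies Poincaré duality in dimension two, with `dim H¹(G, ℤ/2) = n`. -/
structure PD (G : Type*) [Group G] [TopologicalSpace G] (n : ℕ) : Prop where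
  card : Nat.card {a : G → ZMod 2 // Hm a} = 2 ^ n
  one : ∀ f f' : G → G → ZMod 2, Zc f → Zc f' → ¬ Bd f → ¬ Bd f' → Bd (fun g h => f g h + f' g h)
  nd : ∀ a : G → ZMod 2, Hm a → (∃ g, a g ≠ 0) → ∃ b, Hm b ∧ ¬ Bd (fun g h => a g * b h)

/-- Poincaré duality is invariant under isomorphisms. -/
lemma PD.congr {G' : Type*} [Group G'] [TopologicalSpace G'] {n : ℕ} (h : PD G n) (e : G' ≃* G)
    (he : Continuous e) (he' : Continuous e.symm) : PD G' n := by
  have key : ∀ a : G → ZMod 2, Hm a → Hm (a ∘ e) := fun a ha =>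
    ⟨ha.1.comp he, fun g h => by simp [ha.2]⟩
  have key' : ∀ a : G' → ZMod 2, Hm a → Hm (a ∘ e.symm) := fun a ha =>
    ⟨ha.1.comp he', fun g h => by simp [ha.2]⟩
  have kB : ∀ f : G' → G' → ZMod 2, Bd (fun g h => f (e.symm g) (e.symm h)) → Bd f := by
    rintro f ⟨η, h1, h2⟩
    refine ⟨η ∘ e, h1.comp he, fun g h => ?_⟩
    have := h2 (e g) (e h)
    simpa [← map_mul] using this
  have kB' : ∀ f : G' → G' → ZMod 2, Bd f → Bd (fun g h => f (e.symm g) (e.symm h)) := by
    rintro f ⟨η, h1, h2⟩
    refine ⟨η ∘ e.symm, h1.comp he', fun g h => ?_⟩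
    simp [h2]
  have kZ : ∀ f : G' → G' → ZMod 2, Zc f → Zc (fun g h => f (e.symm g) (e.symm h)) := by
    rintro f ⟨h1, h2⟩
    refine ⟨h1.comp ((he'.comp continuous_fst).prodMk (he'.comp continuous_snd)), fun g h k => ?_⟩
    simp [h2]
  refine ⟨?_, fun f f' hf hf' h1 h2 => ?_, fun a ha h0 => ?_⟩
  · rw [← h.card]
    refine Nat.card_congr ⟨fun a => ⟨_, key' a.1 a.2⟩, fun a => ⟨_, key a.1 a.2⟩, fun a => ?_,
      fun a => ?_⟩
    · ext g; simp
    · ext g; simp
  · exact kB _ (h.one _ _ (kZ f hf) (kZ f' hf') (fun h => h1 (kB _ h)) fun h => h2 (kB _ h))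
  · obtain ⟨g, hg⟩ := h0
    obtain ⟨b, hb, hb2⟩ := h.nd _ (key' a ha) ⟨e g, by simpa using hg⟩
    refine ⟨b ∘ e, key b hb, fun h3 => hb2 ?_⟩
    have := kB' _ h3
    simpa using this

end Basic

section Two

variable {G : Type*} [Group G] [TopologicalSpace G] [IsTopologicalGroup G]

/-- the kernel of a homomorphism to `ℤ/2` -/
def kerS {c : G → ZMod 2} (hc : Hm c) : Subgroup G where
  carrier := {g | c g = 0}
  mul_mem' := by
    intro a b ha hb
    change c (a * b) = 0
    rw [hc.2, show c a = 0 from ha, show c b = 0 from hb, add_zero]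
  one_mem' := hc.one
  inv_mem' := by
    intro a ha
    change c a⁻¹ = 0
    rw [hc.inv, show c a = 0 from ha]

@[simp] lemma mem_kerS {c : G → ZMod 2} (hc : Hm c) (g : G) : g ∈ kerS hc ↔ c g = 0 := Iff.rfl

/-- coset representatives -/
def rep (t : G) (i : ZMod 2) : G := if i = 0 then 1 else t

@[simp] lemma rep_zero (t : G) : rep t 0 = 1 := by simp [rep]

@[simp] lemma rep_one (t : G) : rep t 1 = t := by simp [rep]

lemma c_rep {c : G → ZMod 2} (hc : Hm c) {t : G} (ht : c t = 1) (i : ZMod 2) : c (rep t i) = i := by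
  have : i = 0 ∨ i = 1 := by revert i; decide
  rcases this with rfl | rfl
  · simp [hc.one]
  · simp [ht]

lemma continuous_rep (t : G) : Continuous (rep t) := continuous_of_discreteTopology

variable {c : G → ZMod 2} (hc : Hm c) {t : G} (ht : c t = 1)

/-- the components of `g` with respect to the coset representatives -/
def uu (i : ZMod 2) (g : G) : kerS hc := ⟨(rep t (i + c g))⁻¹ * g * rep t i, by
  rw [mem_kerS, hc.2, hc.2, hc.inv, c_rep hc ht, c_rep hc ht]; grind⟩

lemma continuous_uu (i : ZMod 2) : Continuous (uu hc ht i) :=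
  Continuous.subtype_mk ((((continuous_rep t).comp (continuous_const.add hc.1)).inv.mul
    continuous_id).mul continuous_const) _

lemma uu_mul (i : ZMod 2) (g h : G) :
    uu hc ht i (g * h) = uu hc ht (i + c h) g * uu hc ht i h := by
  apply Subtype.ext
  simp only [uu, Subgroup.coe_mul, hc.2]
  have : i + (c g + c h) = i + c h + c g := by ring
  rw [this]
  group

lemma uu_zero_of_mem (g : kerS hc) : uu hc ht 0 (g : G) = g := by
  apply Subtype.ext
  have : c (g : G) = 0 := g.2
  simp [uu, this]

lemma sum_two (F : ZMod 2 → ZMod 2) (i : ZMod 2) : F (0 + i) + F (1 + i) = F 0 + F 1 := by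
  have : i = 0 ∨ i = 1 := by revert i; decide
  rcases this with rfl | rfl
  · simp
  · have h : (1 : ZMod 2) + 1 = 0 := by decide
    rw [zero_add, h, add_comm]

/-- the transfer of a 1-cochain -/
def cor1 (α : kerS hc → ZMod 2) (g : G) : ZMod 2 := α (uu hc ht 0 g) + α (uu hc ht 1 g)

/-- the transfer of a 2-cochain -/
def cor2 (f : kerS hc → kerS hc → ZMod 2) (g h : G) : ZMod 2 :=
  f (uu hc ht (0 + c h) g) (uu hc ht 0 h) + f (uu hc ht (1 + c h) g) (uu hc ht 1 h)

lemma Hm.cor1 {α : kerS hc → ZMod 2} (hα : Hm α) : Hm (cor1 hc ht α) := by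
  refine ⟨(hα.1.comp (continuous_uu hc ht 0)).add (hα.1.comp (continuous_uu hc ht 1)),
    fun g h => ?_⟩
  simp only [Pool.Agent.K7.H77.Dem.cor1, uu_mul, hα.2]
  have := sum_two (fun i => α (uu hc ht i g)) (c h)
  linear_combination this

/-- Exactness at `H²(U)`: a cocycle on `U` whose transfer is a coboundary is cohomologous to a
restriction. -/
lemma exact_two {f : kerS hc → kerS hc → ZMod 2} (hf : Zc f) (h : Bd (cor2 hc ht f)) :
    ∃ f' : G → G → ZMod 2, Zc f' ∧ Bd (fun u v : kerS hc => f u v + f' u v) := by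
  obtain ⟨η, hη, hfη⟩ := h
  -- the cochain `F'`
  let F : ZMod 2 → G → G → ZMod 2 := fun i g h => f (uu hc ht (i + c h) g) (uu hc ht i h)
  have hF : ∀ i g h k, F (i + c k) g h + F i (g * h) k = F i h k + F i g (h * k) := by
    intro i g h k
    have := hf.2 (uu hc ht (i + c k + c h) g) (uu hc ht (i + c k) h) (uu hc ht i k)
    simp only [F]
    rw [uu_mul, uu_mul, hc.2]
    have e : i + (c h + c k) = i + c k + c h := by ring
    rw [e]
    exact this
  have hsum : ∀ g h, F 0 g h + F 1 g h = η g + η h + η (g * h) := hfη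
  let E : ZMod 2 → G → ZMod 2 := fun i g => if i = 0 then η g else 0
  have hE : ∀ g, E 0 g + E 1 g = η g := by intro g; simp [E]
  have hEc : ∀ j : ZMod 2, ∀ g, E (0 + j) g + E (1 + j) g = η g := fun j g => by
    rw [sum_two (fun i => E i g), hE]
  let F' : ZMod 2 → G → G → ZMod 2 := fun i g h => F i g h + (E (i + c h) g + E i (g * h) + E i h)
  have hF' : ∀ g h, F' 0 g h + F' 1 g h = 0 := by
    intro g h
    have h1 := hsum g h
    have h2 := hE (g * h)
    have h3 := hE h
    have h4 := hEc (c h) g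
    simp only [F']
    grind
  have hF'c : ∀ i g h k, F' (i + c k) g h + F' i (g * h) k = F' i h k + F' i g (h * k) := by
    intro i g h k
    have h1 := hF i g h k
    simp only [F']
    have e : i + c (h * k) = i + c k + c h := by rw [hc.2]; ring
    rw [e, mul_assoc]
    grind
  have hind : ∀ i g h, F' i g h = F' 0 g h := by
    intro i g h
    have : i = 0 ∨ i = 1 := by revert i; decide
    have := hF' g h
    rcases ‹i = 0 ∨ i = 1› with rfl | rfl
    · rfl
    · grind
  have hFcont : ∀ i, Continuous fun x : G × G => F i x.1 x.2 := by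
    intro i
    have h1 : Continuous fun x : G × G => uu hc ht (i + c x.2) x.1 := by
      refine Continuous.subtype_mk ?_ _
      have hcc := hc.1
      have e1 : Continuous fun x : G × G => i + c x.2 := by fun_prop
      have e2 : Continuous fun x : G × G => i + c x.2 + c x.1 := by fun_prop
      exact ((((continuous_rep t).comp e2).inv.mul
        continuous_fst).mul ((continuous_rep t).comp e1))
    exact hf.1.comp (h1.prodMk ((continuous_uu hc ht i).comp continuous_snd))
  have hEcont : Continuous fun x : ZMod 2 × G => E x.1 x.2 := by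
    have e1 : Continuous fun x : ZMod 2 × G => (if x.1 = 0 then (1 : ZMod 2) else 0) :=
      (continuous_of_discreteTopology (f := fun i : ZMod 2 => if i = 0 then (1 : ZMod 2) else 0)).comp
        continuous_fst
    have : (fun x : ZMod 2 × G => E x.1 x.2) =
        fun x : ZMod 2 × G => (if x.1 = 0 then (1 : ZMod 2) else 0) * η x.2 := by
      funext x
      simp only [E]
      split_ifs <;> simp
    rw [this]
    exact e1.mul (hη.comp continuous_snd)
  have hF'cont : Continuous fun x : G × G => F' 0 x.1 x.2 := by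
    have hcc := hc.1
    have e0 : Continuous fun x : G × G => ((0 + c x.2, x.1) : ZMod 2 × G) := by fun_prop
    have e1 : Continuous fun x : G × G => E (0 + c x.2) x.1 := hEcont.comp e0
    have e2 : Continuous fun x : G × G => E 0 (x.1 * x.2) := by
      simp only [E, if_true]
      exact hη.comp (continuous_fst.mul continuous_snd)
    have e3 : Continuous fun x : G × G => E 0 x.2 := by
      simp only [E, if_true]
      exact hη.comp continuous_snd
    exact (hFcont 0).add ((e1.add e2).add e3)
  refine ⟨F' 0, ⟨hF'cont, fun g h k => ?_⟩, ⟨fun u => η u, hη.comp continuous_subtype_val,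
    fun u v => ?_⟩⟩
  · have := hF'c 0 g h k
    rw [hind] at this
    exact this
  · have hv : c (v : G) = 0 := v.2
    simp only [F', F, E, hv, add_zero, uu_zero_of_mem, if_true, Subgroup.coe_mul]
    grind

/-- the projection formula -/
lemma projection {a : G → ZMod 2} (ha : Hm a) {α : kerS hc → ZMod 2} (hα : Hm α) :
    Bd (fun g h => cor2 hc ht (fun u v => a u * α v) g h + a g * cor1 hc ht α h) := by
  let ζ : G → ZMod 2 := fun h => a (rep t (0 + c h)) * α (uu hc ht 0 h) +
    a (rep t (1 + c h)) * α (uu hc ht 1 h)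
  have hrc : ∀ i : ZMod 2, Continuous fun h : G => a (rep t (i + c h)) := fun i => by
    have hcc := hc.1
    have e : Continuous fun h : G => i + c h := by fun_prop
    exact ha.1.comp ((continuous_rep t).comp e)
  have hζ : Continuous ζ := ((hrc 0).mul (hα.1.comp (continuous_uu hc ht 0))).add
    ((hrc 1).mul (hα.1.comp (continuous_uu hc ht 1)))
  have hau : ∀ i g, a (uu hc ht i g : G) = a g + a (rep t i) + a (rep t (i + c g)) := by
    intro i g
    simp only [uu]
    rw [ha.2, ha.2, ha.inv]
    ring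
  refine ⟨ζ, hζ, fun g h => ?_⟩
  have key := sum_two (fun j => a (rep t (j + c g)) * α (uu hc ht j g)) (c h)
  simp only [cor2, cor1, ζ, hau, uu_mul, hα.2, hc.2]
  have e0 : (0 : ZMod 2) + (c g + c h) = 0 + c h + c g := by ring
  have e1 : (1 : ZMod 2) + (c g + c h) = 1 + c h + c g := by ring
  rw [e0, e1]
  grind

end Two

end Pool.Agent.K7.H77.Dem
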