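import Pool.Agent.K7.H77.Dem.Step

set_option autoImplicit false
set_option linter.unusedSectionVars false

/-!
# Duality passes to open subgroups of pro-`2` groups
-/

namespace Pool.Agent.K7.H77.Dem

section Hom

variable {G : Type*} [Group G] [TopologicalSpace G] [IsTopologicalGroup G]

/-- A homomorphism to `ℤ/2` which vanishes on an open subgroup is continuous. -/
lemma continuous_of_vanish {a : G → ZMod 2} (ha : ∀ g h, a (g * h) = a g + a h) (V : Subgroup G)
    (hV : IsOpen (V : Set G)) (h0 : ∀ v ∈ V, a v = 0) : Continuous a := by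
  refine IsLocallyConstant.continuous ((IsLocallyConstant.iff_exists_open _).2 fun g => ?_)
  refine ⟨(fun x => g⁻¹ * x) ⁻¹' (V : Set G), hV.preimage (continuous_const_mul g⁻¹), by
    simp [V.one_mem], fun x hx => ?_⟩
  have h1 : a x = a g + a (g⁻¹ * x) := by rw [← ha]; simp
  rw [h1, h0 _ hx, add_zero]

open Classical in
/-- the homomorphism to `ℤ/2` with a given kernel of index two -/
noncomputable def homOf (V : Subgroup G) : G → ZMod 2 := fun g => if g ∈ V then 0 else 1

lemma homOf_eq_zero {V : Subgroup G} {g : G} : homOf V g = 0 ↔ g ∈ V := by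
  unfold homOf
  split_ifs with h
  · simp [h]
  · simp [h]

lemma hm_homOf {V : Subgroup G} (h2 : V.index = 2) (hV : IsOpen (V : Set G)) : Hm (homOf V) := by
  have hm : ∀ g h, homOf V (g * h) = homOf V g + homOf V h := by
    intro g h
    have h11 : (1 : ZMod 2) + 1 = 0 := by decide
    have := Subgroup.mul_mem_iff_of_index_two h2 (a := g) (b := h)
    unfold homOf
    by_cases hg : g ∈ V <;> by_cases hh : h ∈ V <;> simp [hg, hh, this, h11]
  exact ⟨continuous_of_vanish hm V hV fun v hv => homOf_eq_zero.2 hv, hm⟩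

/-- all open subgroups have index a power of two -/
def P2 (G : Type*) [Group G] [TopologicalSpace G] : Prop :=
  ∀ V : Subgroup G, IsOpen (V : Set G) → ∃ k : ℕ, V.index = 2 ^ k

variable [CompactSpace G] [TotallyDisconnectedSpace G]

/-- the relative topology of a subgroup: an open subgroup contains the trace of an open normal
subgroup -/
lemma exists_normal_trace (L : Subgroup G) (V : Subgroup L) (hV : IsOpen (V : Set L)) :
    ∃ W : Subgroup G, W.Normal ∧ IsOpen (W : Set G) ∧ W.subgroupOf L ≤ V := by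
  obtain ⟨O, hO, hOV⟩ := isOpen_induced_iff.1 hV
  have h1 : (1 : G) ∈ O := by
    have : (1 : L) ∈ Subtype.val ⁻¹' O := by rw [hOV]; exact V.one_mem
    simpa using this
  obtain ⟨W, hW⟩ := ProfiniteGrp.exist_openNormalSubgroup_sub_open_nhds_of_one hO h1
  refine ⟨W.toSubgroup, W.isNormal', W.isOpen', fun x hx => ?_⟩
  have : x ∈ Subtype.val ⁻¹' O := hW hx
  rw [hOV] at this
  exact this

lemma exists_normal_le {V : Subgroup G} (hV : IsOpen (V : Set G)) :
    ∃ W : Subgroup G, W.Normal ∧ IsOpen (W : Set G) ∧ W ≤ V := by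
  obtain ⟨W, hW⟩ := ProfiniteGrp.exist_openNormalSubgroup_sub_open_nhds_of_one hV V.one_mem
  exact ⟨W.toSubgroup, W.isNormal', W.isOpen', hW⟩

lemma P2.sub (h : P2 G) (L : Subgroup G) : P2 L := by
  intro V hV
  obtain ⟨W, hn, hW, hWV⟩ := exists_normal_trace L V hV
  obtain ⟨k, hk⟩ := h W hW
  have h1 : V.index ∣ (W.subgroupOf L).index := Subgroup.index_dvd_of_le hWV
  have h2 : W.relIndex L ∣ W.index := Subgroup.relIndex_dvd_index_of_normal W L
  rw [hk] at h2
  obtain ⟨m, _, hm⟩ := (Nat.dvd_prime_pow Nat.prime_two).1 (h1.trans h2)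
  exact ⟨m, hm⟩

lemma finite_quot {W : Subgroup G} (hW : IsOpen (W : Set G)) : Finite (G ⧸ W) :=
  Subgroup.quotient_finite_of_isOpen W hW

/-- An open subgroup `U ≠ ⊤` has index two in some subgroup, and it is contained in a subgroup of
index two. -/
lemma exists_up (h : P2 G) {U : Subgroup G} (hU : IsOpen (U : Set G)) (hne : U ≠ ⊤) :
    (∃ U' : Subgroup G, U ≤ U' ∧ IsOpen (U' : Set G) ∧ U.relIndex U' = 2) ∧
      ∃ V : Subgroup G, U ≤ V ∧ IsOpen (V : Set G) ∧ V.index = 2 := by
  obtain ⟨W, hn, hW, hWU⟩ := exists_normal_le hU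
  obtain ⟨k, hk⟩ := h W hW
  have hfin := finite_quot hW
  have hQ : Nat.card (G ⧸ W) = 2 ^ k := hk
  set π := QuotientGroup.mk' W with hπ
  have hsurj : Function.Surjective π := QuotientGroup.mk'_surjective W
  have hker : π.ker = W := QuotientGroup.ker_mk' W
  set Ub := U.map π with hUb
  have hcomap : Ub.comap π = U := by
    rw [hUb, Subgroup.comap_map_eq, hker, sup_eq_left.2 hWU]
  obtain ⟨m, hmk, hm⟩ := (Nat.dvd_prime_pow Nat.prime_two).1
    (hQ ▸ Subgroup.card_subgroup_dvd_card Ub)
  have hlt : m < k := by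
    refine lt_of_le_of_ne hmk fun hmk => hne ?_
    have : Ub = ⊤ := Subgroup.eq_top_of_card_eq _ (by rw [hm, hQ, hmk])
    rw [← hcomap, this, Subgroup.comap_top]
  have hpull : ∀ K : Subgroup (G ⧸ W), Ub ≤ K → ∀ j, Nat.card K = 2 ^ j →
      U ≤ K.comap π ∧ IsOpen ((K.comap π : Subgroup G) : Set G) ∧
        (K.comap π).index * 2 ^ j = 2 ^ k := by
    intro K hK j hj
    have h1 : U ≤ K.comap π := by rw [← Subgroup.map_le_iff_le_comap]; exact hK
    refine ⟨h1, Subgroup.isOpen_mono (hWU.trans h1) hW, ?_⟩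
    rw [Subgroup.index_comap_of_surjective _ hsurj, ← hj, mul_comm, Subgroup.card_mul_index, hQ]
  have hUidx := hpull Ub le_rfl m hm
  rw [hcomap] at hUidx
  constructor
  · obtain ⟨K, hK, hle⟩ := Sylow.exists_subgroup_card_pow_succ (p := 2) (n := m) (G := G ⧸ W)
      (by rw [hQ]; exact pow_dvd_pow 2 hlt) hm
    obtain ⟨h1, h2, h3⟩ := hpull K hle _ hK
    refine ⟨K.comap π, h1, h2, ?_⟩
    have h4 := Subgroup.relIndex_mul_index h1
    have h5 : 0 < (K.comap π).index := by
      rcases Nat.eq_zero_or_pos (K.comap π).index with h | h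
      · rw [h, zero_mul] at h3
        exact absurd h3.symm (by positivity)
      · exact h
    have h6 : U.relIndex (K.comap π) * ((K.comap π).index * 2 ^ m) =
        2 * ((K.comap π).index * 2 ^ m) := by
      calc U.relIndex (K.comap π) * ((K.comap π).index * 2 ^ m)
          = U.index * 2 ^ m := by rw [← mul_assoc, h4]
        _ = 2 ^ k := hUidx.2.2
        _ = (K.comap π).index * 2 ^ (m + 1) := h3.symm
        _ = 2 * ((K.comap π).index * 2 ^ m) := by ring
    exact Nat.eq_of_mul_eq_mul_right (by positivity) h6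
  · obtain ⟨j, rfl⟩ : ∃ j, k = j + 1 := ⟨k - 1, by omega⟩
    obtain ⟨K, hK, hle⟩ := Sylow.exists_subgroup_card_pow_prime_le (G := G ⧸ W) 2 (n := m) (m := j)
      (by rw [hQ]; exact pow_dvd_pow 2 (by omega)) Ub hm (by omega)
    obtain ⟨h1, h2, h3⟩ := hpull K hle _ hK
    refine ⟨K.comap π, h1, h2, ?_⟩
    have h6 : (K.comap π).index * 2 ^ j = 2 * 2 ^ j := by rw [h3]; ring
    exact Nat.eq_of_mul_eq_mul_right (by positivity) h6

/-- A closed subgroup `≠ ⊤` is contained in the kernel of a nonzero homomorphism to `ℤ/2`. -/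
lemma exists_hom (h : P2 G) {L : Subgroup G} (hL : IsClosed (L : Set G)) (hne : L ≠ ⊤) :
    ∃ c : G → ZMod 2, Hm c ∧ (∃ g, c g ≠ 0) ∧ ∀ l ∈ L, c l = 0 := by
  have h1 := ProfiniteGrp.closedSubgroup_eq_sInf_open (G := G) ⟨L, hL⟩
  obtain ⟨U, hU, hLU, hUne⟩ : ∃ U : Subgroup G, IsOpen (U : Set G) ∧ L ≤ U ∧ U ≠ ⊤ := by
    by_contra hcon
    push Not at hcon
    apply hne
    have h2 : L = sInf {N : Subgroup G | IsOpen (N : Set G) ∧ L ≤ N} := h1
    rw [h2, sInf_eq_top]
    rintro N ⟨hN, hLN⟩
    exact hcon N hN hLN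
  obtain ⟨-, V, hUV, hV, hV2⟩ := exists_up h hU hUne
  refine ⟨homOf V, hm_homOf hV2 hV, ?_, fun l hl => homOf_eq_zero.2 (hUV (hLU hl))⟩
  by_contra hcon
  push Not at hcon
  have : V = ⊤ := by
    rw [Subgroup.eq_top_iff']
    exact fun g => homOf_eq_zero.1 (hcon g)
  rw [this, Subgroup.index_top] at hV2
  exact absurd hV2 (by norm_num)

/-- **Duality passes to open subgroups**, with the index formula for the rank. -/
theorem PD.open (h2 : P2 G) (h : PD G 3) :
    ∀ U : Subgroup G, IsOpen (U : Set G) → PD U (U.index + 2) := by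
  intro U
  induction hn : U.index using Nat.strong_induction_on generalizing U with
  | _ n ih =>
  subst hn
  intro hU
  by_cases hne : U = ⊤
  · subst hne
    rw [Subgroup.index_top]
    exact h.congr (Subgroup.topEquiv) continuous_subtype_val
      (Continuous.subtype_mk continuous_id _)
  obtain ⟨⟨U', hUU', hU', hrel⟩, -⟩ := exists_up h2 hU hne
  have hidx : U.index = 2 * U'.index := by
    rw [← Subgroup.relIndex_mul_index hUU', hrel]
  have hpos : 0 < U'.index := by
    obtain ⟨k, hk⟩ := h2 U' hU'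
    rw [hk]; positivity
  have hPD := ih U'.index (by omega) U' rfl hU'
  have hV : IsOpen ((U.subgroupOf U' : Subgroup U') : Set U') :=
    hU.preimage continuous_subtype_val
  have hc := hm_homOf (V := U.subgroupOf U') hrel hV
  have h0 : ∃ g, homOf (U.subgroupOf U') g ≠ 0 := by
    by_contra hcon
    push Not at hcon
    have : U.subgroupOf U' = ⊤ := by
      rw [Subgroup.eq_top_iff']
      exact fun g => homOf_eq_zero.1 (hcon g)
    have h3 : (U.subgroupOf U').index = 2 := hrel
    rw [this, Subgroup.index_top] at h3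
    exact absurd h3 (by norm_num)
  have hstep := PD.step (n := U'.index + 1) hPD hc h0
  have hk : kerS hc = U.subgroupOf U' := by
    ext g
    rw [mem_kerS]
    exact homOf_eq_zero
  rw [hidx]
  have e2 : 2 * U'.index + 2 = 2 * (U'.index + 1) := by ring
  rw [e2]
  let e : U ≃* kerS hc :=
    { toFun := fun g => ⟨⟨g, hUU' g.2⟩, by rw [hk]; exact g.2⟩
      invFun := fun g => ⟨(g : U'), (homOf_eq_zero (V := U.subgroupOf U')).1 g.2⟩
      left_inv := fun g => rfl
      right_inv := fun g => rfl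
      map_mul' := fun g h => rfl }
  refine hstep.congr e ?_ ?_
  · exact Continuous.subtype_mk (Continuous.subtype_mk continuous_subtype_val _) _
  · exact Continuous.subtype_mk (continuous_subtype_val.comp continuous_subtype_val) _

end Hom

end Pool.Agent.K7.H77.Dem
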