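import Pool.Agent.K7.H77.Dem.Index2

set_option autoImplicit false
set_option linter.unusedSectionVars false

/-!
# Duality passes to subgroups of index two
-/

namespace Pool.Agent.K7.H77.Dem

section Two

variable {G : Type*} [Group G] [TopologicalSpace G] [IsTopologicalGroup G]
variable {c : G → ZMod 2} (hc : Hm c) {t : G} (ht : c t = 1)

lemma Hm.res {a : G → ZMod 2} (ha : Hm a) (U : Subgroup G) : Hm (fun u : U => a u) :=
  ⟨ha.1.comp continuous_subtype_val, fun g h => by simp [ha.2]⟩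

lemma Zc.res {f : G → G → ZMod 2} (hf : Zc f) (U : Subgroup G) : Zc (fun u v : U => f u v) :=
  ⟨hf.1.comp ((continuous_subtype_val.comp continuous_fst).prodMk
    (continuous_subtype_val.comp continuous_snd)), fun g h k => by simp [hf.2]⟩

lemma Bd.res {f : G → G → ZMod 2} (hf : Bd f) (U : Subgroup G) : Bd (fun u v : U => f u v) := by
  obtain ⟨e, he, h⟩ := hf
  exact ⟨fun u => e u, he.comp continuous_subtype_val, fun u v => by simp [h]⟩

lemma Bd.cor2 {f : kerS hc → kerS hc → ZMod 2} (hf : Bd f) : Bd (cor2 hc ht f) := by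
  obtain ⟨e, he, h⟩ := hf
  refine ⟨cor1 hc ht e, (he.comp (continuous_uu hc ht 0)).add (he.comp (continuous_uu hc ht 1)),
    fun g k => ?_⟩
  have key := sum_two (fun j => e (uu hc ht j g)) (c k)
  simp only [Pool.Agent.K7.H77.Dem.cor2, cor1, h, uu_mul]
  grind

lemma Zc.cor2 {f : kerS hc → kerS hc → ZMod 2} (hf : Zc f) : Zc (cor2 hc ht f) := by
  have hcc := hc.1
  have hF : ∀ i g h k, f (uu hc ht (i + c k + c h) g) (uu hc ht (i + c k) h) +
      f (uu hc ht (i + c k) (g * h)) (uu hc ht i k) =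
      f (uu hc ht (i + c k) h) (uu hc ht i k) +
      f (uu hc ht (i + c k + c h) g) (uu hc ht i (h * k)) := by
    intro i g h k
    have := hf.2 (uu hc ht (i + c k + c h) g) (uu hc ht (i + c k) h) (uu hc ht i k)
    rw [uu_mul, uu_mul]
    exact this
  have hFcont : ∀ i, Continuous fun x : G × G => f (uu hc ht (i + c x.2) x.1) (uu hc ht i x.2) := by
    intro i
    have h1 : Continuous fun x : G × G => uu hc ht (i + c x.2) x.1 := by
      refine Continuous.subtype_mk ?_ _
      have e1 : Continuous fun x : G × G => i + c x.2 := by fun_prop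
      have e2 : Continuous fun x : G × G => i + c x.2 + c x.1 := by fun_prop
      exact ((((continuous_rep t).comp e2).inv.mul
        continuous_fst).mul ((continuous_rep t).comp e1))
    exact hf.1.comp (h1.prodMk ((continuous_uu hc ht i).comp continuous_snd))
  refine ⟨(hFcont 0).add (hFcont 1), fun g h k => ?_⟩
  have h0 := hF 0 g h k
  have h1 := hF 1 g h k
  have key := sum_two (fun j => f (uu hc ht (j + c h) g) (uu hc ht j h)) (c k)
  have e0 : (0 : ZMod 2) + c (h * k) = 0 + c k + c h := by rw [hc.2]; ring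
  have e1 : (1 : ZMod 2) + c (h * k) = 1 + c k + c h := by rw [hc.2]; ring
  simp only [Pool.Agent.K7.H77.Dem.cor2]
  rw [e0, e1]
  grind

/-- exactness at `H¹(G)` -/
lemma exact_one {b : G → ZMod 2} (hb : Hm b) (h : Bd (fun g h => b g * c h)) :
    ∃ β : kerS hc → ZMod 2, Hm β ∧ cor1 hc ht β = b := by
  obtain ⟨η, hη, h2⟩ := h
  beta_reduce at h2
  refine ⟨fun u => η u, ⟨hη.comp continuous_subtype_val, fun u v => ?_⟩, ?_⟩
  · have := h2 u v
    have hv : c (v : G) = 0 := v.2
    rw [hv, mul_zero] at this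
    simp only [Subgroup.coe_mul]
    grind
  · funext g
    have hη1 : η 1 = 0 := by
      have := h2 1 1
      rw [hb.one, mul_one] at this
      grind
    have h3 := h2 t⁻¹ t
    rw [inv_mul_cancel, hη1, hb.inv, ht] at h3
    have hg : c g = 0 ∨ c g = 1 := by generalize c g = x; revert x; decide
    rcases hg with hg | hg
    · have h4 : η (t⁻¹ * g * t) = η g + b g := by
        have e1 := h2 t⁻¹ (g * t)
        have e2 := h2 g t
        rw [hb.inv, hc.2, hg, ht] at e1
        rw [ht] at e2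
        rw [mul_assoc]
        grind
      simp only [cor1, uu, hg, add_zero, rep_zero, rep_one, inv_one, one_mul, mul_one, h4]
      grind
    · have h5 : (1 : ZMod 2) + 1 = 0 := by decide
      simp only [cor1, uu, hg, zero_add, rep_zero, rep_one, inv_one, one_mul, mul_one, h5]
      have e1 := h2 t⁻¹ g
      have e2 := h2 g t
      rw [hb.inv, hg] at e1
      rw [ht] at e2
      grind

/-- a homomorphism on `U` as a cochain on `G` -/
lemma cor_aux {α : kerS hc → ZMod 2} (hα : Hm α) (g h : G) :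
    α (uu hc ht 0 (g * h)) = α (uu hc ht 0 g) + α (uu hc ht 0 h) + cor1 hc ht α g * c h := by
  rw [uu_mul, hα.2]
  have hh : c h = 0 ∨ c h = 1 := by generalize c h = x; revert x; decide
  rcases hh with hh | hh
  · rw [hh]; simp
  · rw [hh, zero_add]
    simp only [cor1]
    grind

/-- exactness at `H¹(G)` -/
lemma cor_cup {α : kerS hc → ZMod 2} (hα : Hm α) : Bd (fun g h => cor1 hc ht α g * c h) :=
  ⟨fun g => α (uu hc ht 0 g), hα.1.comp (continuous_uu hc ht 0), fun g h => by
    have := cor_aux hc ht hα g h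
    grind⟩

/-- exactness at `H¹(U)` -/
lemma exact_res {α : kerS hc → ZMod 2} (hα : Hm α) (h : ∀ g, cor1 hc ht α g = 0) :
    ∃ a : G → ZMod 2, Hm a ∧ ∀ u : kerS hc, α u = a u := by
  refine ⟨fun g => α (uu hc ht 0 g), ⟨hα.1.comp (continuous_uu hc ht 0), fun g k => ?_⟩,
    fun u => ?_⟩
  · have := cor_aux hc ht hα g k
    rw [h, zero_mul, add_zero] at this
    exact this
  · simp only [uu_zero_of_mem]

lemma cor_res {a : G → ZMod 2} (ha : Hm a) (g : G) :
    cor1 hc ht (fun u : kerS hc => a u) g = 0 := by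
  have hau : ∀ i g, a (uu hc ht i g : G) = a g + a (rep t i) + a (rep t (i + c g)) := by
    intro i g
    simp only [uu]
    rw [ha.2, ha.2, ha.inv]
    ring
  have key := sum_two (fun j => a (rep t j)) (c g)
  simp only [cor1, hau]
  grind

/-- the transfer is injective on `H²` -/
lemma PD.inj_cor {n : ℕ} (h : PD G n) {f : kerS hc → kerS hc → ZMod 2} (hf : Zc f)
    (hb : Bd (cor2 hc ht f)) : Bd f := by
  obtain ⟨f', hf', h1⟩ := exact_two hc ht hf hb
  have h2 : Bd (fun u v : kerS hc => f' u v) := by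
    by_cases h3 : Bd f'
    · exact h3.res _
    · obtain ⟨b, hb, hb2⟩ := h.nd c hc ⟨t, by rw [ht]; decide⟩
      have h4 : ¬ Bd (fun g h => b g * c h) := fun h => hb2 (h.comm hb hc)
      have h5 := (h.one _ _ hf' (Zc.cup hb hc) h3 h4).res (kerS hc)
      refine h5.imp fun e he => ⟨he.1, fun u v => ?_⟩
      have := he.2 u v
      have hv : c (v : G) = 0 := v.2
      rw [← this]
      beta_reduce
      rw [hv]
      simp
  have h3 : Bd (fun u v : kerS hc => f' u v + f u v) := by
    refine h1.imp fun e he => ⟨he.1, fun u v => ?_⟩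
    rw [← he.2 u v]; beta_reduce; rw [add_comm]
  exact h3.of_add h2

/-- a separation lemma for the cup product form -/
lemma PD.sep {n : ℕ} (h : PD G n) {a c : G → ZMod 2} (ha : Hm a) (hc : Hm c)
    (h1 : ∃ g, a g ≠ 0) (h2 : ∃ g, a g ≠ c g) :
    ∃ b, Hm b ∧ Bd (fun g h => b g * c h) ∧ ¬ Bd (fun g h => a g * b h) := by
  have hsub : ∀ {x y : G → ZMod 2}, Hm x → Hm y → ∀ {b}, Hm b → ¬ Bd (fun g h => x g * b h) →
      ¬ Bd (fun g h => y g * b h) → Bd (fun g h => (x g + y g) * b h) := by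
    intro x y hx hy b hb h1 h2
    refine (h.one _ _ (Zc.cup hx hb) (Zc.cup hy hb) h1 h2).imp fun e he => ⟨he.1, fun u v => ?_⟩
    rw [← he.2 u v]; beta_reduce; ring
  have hac : Hm (fun g => a g + c g) := ha.add hc
  obtain ⟨b2, hb2, h3⟩ := h.nd _ hac (by
    obtain ⟨g, hg⟩ := h2
    refine ⟨g, fun h => hg ?_⟩
    grind)
  by_cases h4 : Bd (fun g h => c g * b2 h)
  · refine ⟨b2, hb2, h4.comm hc hb2, fun h5 => h3 ?_⟩
    refine (h5.add h4).imp fun e he => ⟨he.1, fun u v => ?_⟩
    rw [← he.2 u v]; beta_reduce; ring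
  have h5 : Bd (fun g h => a g * b2 h) := by
    refine (hsub hac hc hb2 h3 h4).imp fun e he => ⟨he.1, fun u v => ?_⟩
    rw [← he.2 u v]; beta_reduce; grind
  obtain ⟨b1, hb1, h6⟩ := h.nd a ha h1
  by_cases h7 : Bd (fun g h => c g * b1 h)
  · exact ⟨b1, hb1, h7.comm hc hb1, h6⟩
  refine ⟨fun g => b1 g + b2 g, hb1.add hb2, ?_, fun h8 => h6 ?_⟩
  · refine Bd.comm hc (hb1.add hb2) ?_
    refine (h.one _ _ (Zc.cup hc hb1) (Zc.cup hc hb2) h7 h4).imp fun e he => ⟨he.1, fun u v => ?_⟩
    rw [← he.2 u v]; beta_reduce; ring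
  · have h9 : Bd (fun g h => a g * b2 h + a g * b1 h) := by
      refine h8.imp fun e he => ⟨he.1, fun u v => ?_⟩
      rw [← he.2 u v]; beta_reduce; ring
    exact h9.of_add h5

include ht in
/-- non-degeneracy for the subgroup of index two -/
lemma PD.step_nd {n : ℕ} (h : PD G n) {α : kerS hc → ZMod 2} (hα : Hm α) (h0 : ∃ u, α u ≠ 0) :
    ∃ β, Hm β ∧ ¬ Bd (fun u v => α u * β v) := by
  have key : ∀ {a : G → ZMod 2} (_ : Hm a) {β : kerS hc → ZMod 2} (_ : Hm β),
      ¬ Bd (fun g h => a g * cor1 hc ht β h) → ¬ Bd (fun u v : kerS hc => a u * β v) := by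
    intro a ha β hβ h1 h2
    exact h1 ((projection hc ht ha hβ).of_add (h2.cor2 hc ht))
  by_cases h1 : ∃ g, cor1 hc ht α g ≠ 0
  · obtain ⟨a, ha, h2⟩ := h.nd _ (Hm.cor1 hc ht hα) h1
    refine ⟨fun u => a u, ha.res _, fun h3 => ?_⟩
    have h4 : ¬ Bd (fun g h => a g * cor1 hc ht α h) := fun h => h2 (h.comm ha (Hm.cor1 hc ht hα))
    exact key ha hα h4 (h3.comm hα (ha.res _))
  · push Not at h1
    obtain ⟨a, ha, h2⟩ := exact_res hc ht hα h1
    obtain ⟨u, hu⟩ := h0
    obtain ⟨b, hb, h3, h4⟩ := h.sep ha hc ⟨u, by rw [← h2]; exact hu⟩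
      ⟨u, by rw [← h2, show c (u : G) = 0 from u.2]; exact hu⟩
    obtain ⟨β, hβ, rfl⟩ := exact_one hc ht hb h3
    refine ⟨β, hβ, fun h5 => key ha hβ h4 ?_⟩
    simpa [h2] using h5

include ht in
lemma PD.step_one {n : ℕ} (h : PD G n) (f f' : kerS hc → kerS hc → ZMod 2) (hf : Zc f)
    (hf' : Zc f') (h1 : ¬ Bd f) (h2 : ¬ Bd f') : Bd (fun g h => f g h + f' g h) := by
  refine h.inj_cor hc ht (hf.add hf') ?_
  refine (h.one _ _ (hf.cor2 hc ht) (hf'.cor2 hc ht) (fun h3 => h1 (h.inj_cor hc ht hf h3))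
    fun h3 => h2 (h.inj_cor hc ht hf' h3)).imp fun e he => ⟨he.1, fun u v => ?_⟩
  rw [← he.2 u v]
  simp only [cor2]
  ring

/-- the transfer on `H¹` -/
def corH : H1 2 (kerS hc) →+ H1 2 G :=
  AddMonoidHom.mk' (fun α => ⟨cor1 hc ht α.1, Hm.cor1 hc ht α.2⟩) (by
    intro α β
    apply Subtype.ext
    funext g
    simp only [cor1, Submodule.coe_add, Pi.add_apply]
    ring)

/-- the restriction on `H¹` -/
def resH : H1 2 G →+ H1 2 (kerS hc) :=
  AddMonoidHom.mk' (fun a => ⟨fun u => a.1 u, (show Hm a.1 from a.2).res _⟩) (by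
    intro α β
    apply Subtype.ext
    funext g
    simp)

lemma card_hom {A B : Type*} [AddCommGroup A] [AddCommGroup B] (f : A →+ B) :
    Nat.card A = Nat.card f.range * Nat.card f.ker := by
  rw [AddSubgroup.card_eq_card_quotient_mul_card_addSubgroup f.ker,
    Nat.card_congr (QuotientAddGroup.quotientKerEquivRange f).toEquiv]

lemma ker_corH : (corH hc ht).ker = (resH hc).range := by
  ext α
  constructor
  · intro h
    have h1 : ∀ g, cor1 hc ht α.1 g = 0 := fun g => congrFun (congrArg Subtype.val h) g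
    obtain ⟨a, ha, h2⟩ := exact_res hc ht α.2 h1
    exact ⟨⟨a, ha⟩, Subtype.ext (funext fun u => (h2 u).symm)⟩
  · rintro ⟨a, rfl⟩
    exact Subtype.ext (funext fun g => cor_res hc ht a.2 g)

include ht in
lemma card_ker_resH : Nat.card (resH hc).ker = 2 := by
  rw [Nat.card_eq_two_iff]
  have hres : ∀ g, c g = 1 → ∃ u : kerS hc, g = t * u := fun g hg =>
    ⟨⟨t⁻¹ * g, by rw [mem_kerS, hc.2, hc.inv, ht, hg]; decide⟩, by simp⟩
  have hcm : (⟨c, hc⟩ : H1 2 G) ∈ (resH hc).ker := Subtype.ext (funext fun u => u.2)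
  refine ⟨0, ⟨⟨c, hc⟩, hcm⟩, ?_, ?_⟩
  · intro h
    have h1 : (0 : G → ZMod 2) = c := congrArg (fun x => x.1.1) h
    have h2 : (0 : ZMod 2) = 1 := (congrFun h1 t).trans ht
    exact absurd h2 (by decide)
  · rw [Set.eq_univ_iff_forall]
    rintro ⟨⟨a, ha⟩, h⟩
    have ha' : Hm a := ha
    have h1 : ∀ u : kerS hc, a u = 0 := fun u => congrFun (congrArg Subtype.val h) u
    have h2 : ∀ g, c g = 0 → a g = 0 := fun g hg => h1 ⟨g, hg⟩
    have h3 : ∀ g, c g = 1 → a g = a t := fun g hg => by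
      obtain ⟨u, rfl⟩ := hres g hg
      rw [ha'.2, h1, add_zero]
    have hx : ∀ x : ZMod 2, x = 0 ∨ x = 1 := by decide
    rcases hx (a t) with h4 | h4
    · left
      apply Subtype.ext
      apply Subtype.ext
      funext g
      rcases hx (c g) with h5 | h5
      · exact h2 g h5
      · exact (h3 g h5).trans h4
    · right
      apply Subtype.ext
      apply Subtype.ext
      funext g
      rcases hx (c g) with h5 | h5
      · exact (h2 g h5).trans h5.symm
      · exact ((h3 g h5).trans h4).trans h5.symm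

lemma PD.index_range {n : ℕ} (h : PD G n) : (corH hc ht).range.index = 2 := by
  have hmem : ∀ b : H1 2 G, b ∈ (corH hc ht).range ↔ Bd (fun g h => b.1 g * c h) := by
    intro b
    constructor
    · rintro ⟨α, rfl⟩
      exact cor_cup hc ht α.2
    · intro hb
      obtain ⟨β, hβ, h1⟩ := exact_one hc ht b.2 hb
      exact ⟨⟨β, hβ⟩, Subtype.ext h1⟩
  obtain ⟨b, hb, hb2⟩ := h.nd c hc ⟨t, by rw [ht]; decide⟩
  have h4 : ¬ Bd (fun g h => b g * c h) := fun h => hb2 (h.comm hb hc)
  rw [AddSubgroup.index_eq_two_iff]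
  refine ⟨⟨b, hb⟩, fun a => ?_⟩
  have ha : Hm a.1 := a.2
  rw [hmem, hmem]
  by_cases h1 : Bd (fun g h => a.1 g * c h)
  · right
    refine ⟨h1, fun h2 => h4 ?_⟩
    have h3 : Bd (fun g h => a.1 g * c h + b g * c h) := by
      refine h2.imp fun e he => ⟨he.1, fun u v => ?_⟩
      rw [← he.2 u v]
      simp only [Submodule.coe_add, Pi.add_apply]
      ring
    exact h3.of_add h1
  · left
    refine ⟨?_, h1⟩
    refine (h.one _ _ (Zc.cup ha hc) (Zc.cup hb hc) h1 h4).imp fun e he => ⟨he.1, fun u v => ?_⟩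
    rw [← he.2 u v]
    simp only [Submodule.coe_add, Pi.add_apply]
    ring

/-- **Duality passes to subgroups of index two.** -/
theorem PD.step {n : ℕ} (h : PD G (n + 1)) (hc : Hm c) (h0 : ∃ g, c g ≠ 0) :
    PD (kerS hc) (2 * n) := by
  obtain ⟨t, ht'⟩ := h0
  have hx : ∀ x : ZMod 2, x = 0 ∨ x = 1 := by decide
  have ht : c t = 1 := (hx (c t)).resolve_left ht'
  refine ⟨?_, fun f f' hf hf' h1 h2 => h.step_one hc ht f f' hf hf' h1 h2,
    fun α hα h0 => h.step_nd hc ht hα h0⟩
  have e1 := card_hom (corH hc ht)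
  have e2 := card_hom (resH hc)
  have e3 := (corH hc ht).range.card_mul_index
  rw [h.index_range hc ht] at e3
  rw [card_ker_resH hc ht] at e2
  rw [ker_corH hc ht] at e1
  have e4 : Nat.card (H1 2 G) = 2 ^ (n + 1) := h.card
  change Nat.card (H1 2 (kerS hc)) = 2 ^ (2 * n)
  rw [e4] at e2 e3
  have e5 : Nat.card (corH hc ht).range = 2 ^ n := by
    have : Nat.card (corH hc ht).range * 2 = 2 ^ n * 2 := by rw [e3, pow_succ]
    exact Nat.eq_of_mul_eq_mul_right (by norm_num) this
  have e6 : Nat.card (resH hc).range = 2 ^ n := by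
    have : Nat.card (resH hc).range * 2 = 2 ^ n * 2 := by rw [← e2, pow_succ]
    exact Nat.eq_of_mul_eq_mul_right (by norm_num) this
  rw [e1, e5, e6, ← pow_add, two_mul]

end Two

end Pool.Agent.K7.H77.Dem
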