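import Pool.Agent.K7.H77.Dem.Virt

set_option autoImplicit false
set_option linter.unusedSectionVars false

/-!
# The dualizing character modulo `8`

Characters `θ` with values in `(ℤ/8)ˣ` such that crossed homomorphisms modulo `2` and `4` lift to
crossed homomorphisms modulo `4` and `8`. They are unique in the presence of duality and restrict to
subgroups of index two.
-/

namespace Pool.Agent.K7.H77.Dem

/-- the embedding of `ℤ/2` in `ℤ/8` -/
def io (x : ZMod 2) : ZMod 8 := if x = 0 then 0 else 4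

/-- a left inverse of `io` -/
def ka (y : ZMod 8) : ZMod 2 := if y = 0 then 0 else 1

lemma io_add (x y : ZMod 2) : io (x + y) = io x + io y := by revert x y; decide
lemma io_inj {x y : ZMod 2} (h : io x = io y) : x = y := by revert x y; decide
lemma io_ka {y : ZMod 8} (h : 2 * y = 0) : io (ka y) = y := by revert y; decide
lemma io_neg (x : ZMod 2) : - io x = io x := by revert x; decide
lemma two_io (x : ZMod 2) : 2 * io x = 0 := by revert x; decide
lemma unit_mul {x z y : ZMod 8} (h : x * z = 1) (hy : 2 * y = 0) : x * y = y := by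
  revert x z y; decide
lemma unit_sub {x z x' z' : ZMod 8} (h : x * z = 1) (h' : x' * z' = 1) : 4 * (x - x') = 0 := by
  revert x z x' z'; decide
lemma exists_lift {s : ZMod 8} (hs : s = 1 ∨ s = 2) : ∃ m : ZMod 2 → ZMod 8, ∀ x, s * m x = io x := by
  rcases hs with rfl | rfl
  · exact ⟨io, fun x => one_mul _⟩
  · exact ⟨fun x => if x = 0 then 0 else 2, by decide⟩

lemma sum_two' {M : Type*} [AddCommMonoid M] (F : ZMod 2 → M) (i : ZMod 2) :
    F (0 + i) + F (1 + i) = F 0 + F 1 := by
  have : i = 0 ∨ i = 1 := by revert i; decide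
  rcases this with rfl | rfl
  · simp
  · have h : (1 : ZMod 2) + 1 = 0 := by decide
    rw [zero_add, h, add_comm]

section Ch

variable {G : Type*} [Group G] [TopologicalSpace G]

/-- continuous characters with values in `ℤ/8` -/
structure Ch (θ : G → ZMod 8) : Prop where
  cont : Continuous θ
  one : θ 1 = 1
  mul : ∀ g h, θ (g * h) = θ g * θ h

lemma Ch.inv {θ : G → ZMod 8} (h : Ch θ) (g : G) : θ g * θ g⁻¹ = 1 := by
  rw [← h.mul, mul_inv_cancel, h.one]

lemma Ch.comp {G' : Type*} [Group G'] [TopologicalSpace G'] {θ : G → ZMod 8} (h : Ch θ)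
    (φ : G' →* G) (hφ : Continuous φ) : Ch (fun g => θ (φ g)) :=
  ⟨h.cont.comp hφ, by simp [h.one], fun g k => by simp [h.mul]⟩

/-- the defect of a crossed homomorphism -/
def df (θ c : G → ZMod 8) (g h : G) : ZMod 8 := c g + θ g * c h - c (g * h)

/-- Crossed homomorphisms lift: `s = 2` is the step from `ℤ/2` to `ℤ/4`, and `s = 1` is the step from
`ℤ/4` to `ℤ/8`. -/
def VG (θ : G → ZMod 8) : Prop :=
  ∀ s : ZMod 8, s = 1 ∨ s = 2 → ∀ c : G → ZMod 8, Continuous c →
    (∀ g h, 2 * (s * df θ c g h) = 0) →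
    ∃ c' : G → ZMod 8, Continuous c' ∧ (∀ g, 2 * (s * (c' g - c g)) = 0) ∧
      ∀ g h, s * df θ c' g h = 0

/-- invariance under isomorphisms -/
lemma VG.congr {G' : Type*} [Group G'] [TopologicalSpace G'] {θ : G → ZMod 8} (h : VG θ)
    (e : G' ≃* G) (he : Continuous e) (he' : Continuous e.symm) : VG (fun g => θ (e g)) := by
  intro s hs c hc h1
  obtain ⟨c', hc', h2, h3⟩ := h s hs (fun g => c (e.symm g)) (hc.comp he') (fun g k => by
    have := h1 (e.symm g) (e.symm k)
    simpa [df] using this)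
  refine ⟨fun g => c' (e g), hc'.comp he, fun g => by simpa using h2 (e g), fun g k => ?_⟩
  have := h3 (e g) (e k)
  simpa [df] using this

lemma df_cocycle {θ : G → ZMod 8} (hθ : Ch θ) (c : G → ZMod 8) (g h k : G) :
    df θ c g h + df θ c (g * h) k = θ g * df θ c h k + df θ c g (h * k) := by
  simp only [df, hθ.mul, mul_assoc]
  ring

lemma io_mul {y z : ZMod 8} {w : ZMod 2} (h : 2 * y = 0) (h' : 4 * z = io w) :
    io (ka y * w) = y * z := by
  revert y z w; decide

lemma cont_ka {f f' : G → ZMod 8} (hf : Continuous f) (hf' : Continuous f') (s : ZMod 8) :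
    Continuous fun g => ka (s * (f g - f' g)) :=
  (continuous_of_discreteTopology (f := fun p : ZMod 8 × ZMod 8 => ka (s * (p.1 - p.2)))).comp
    (hf.prodMk hf')

/-- The comparison of two characters. -/
lemma cmp {θ₁ θ₂ : G → ZMod 8} (h₁ : Ch θ₁) {s : ZMod 8}
    (hθ : ∀ g, 2 * (s * (θ₂ g - θ₁ g)) = 0) {a : G → ZMod 2} {c₁ c₂ : G → ZMod 8}
    (hc₁ : Continuous c₁) (hc₂ : Continuous c₂)
    (hd₁ : ∀ g h, s * df θ₁ c₁ g h = 0) (hd₂ : ∀ g h, s * df θ₂ c₂ g h = 0)
    (hc : ∀ g, 2 * (s * (c₂ g - c₁ g)) = 0) (h4 : ∀ g, 4 * c₂ g = io (a g)) :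
    Bd (fun g h => ka (s * (θ₂ g - θ₁ g)) * a h) := by
  refine ⟨fun g => ka (s * (c₂ g - c₁ g)), cont_ka hc₂ hc₁ s,
    fun g h => io_inj ?_⟩
  have e1 := hd₁ g h
  have e2 := hd₂ g h
  simp only [df] at e1 e2
  have e3 : θ₁ g * (s * (c₂ h - c₁ h)) = s * (c₂ h - c₁ h) := unit_mul (h₁.inv g) (hc h)
  beta_reduce
  rw [io_mul (hθ g) (h4 h), io_add, io_add, io_ka (hc g), io_ka (hc h), io_ka (hc (g * h))]
  linear_combination e2 - e1 - e3 - hc g - hc h

lemma hm_ka {θ₁ θ₂ : G → ZMod 8} (h₁ : Ch θ₁) (h₂ : Ch θ₂) {s : ZMod 8}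
    (hθ : ∀ g, 2 * (s * (θ₂ g - θ₁ g)) = 0) : Hm (fun g => ka (s * (θ₂ g - θ₁ g))) := by
  refine ⟨cont_ka h₂.cont h₁.cont s, fun g h => io_inj ?_⟩
  beta_reduce
  rw [io_add, io_ka (hθ g), io_ka (hθ h), io_ka (hθ (g * h)), h₁.mul, h₂.mul]
  have e1 : θ₂ h * (s * (θ₂ g - θ₁ g)) = s * (θ₂ g - θ₁ g) := unit_mul (h₂.inv h) (hθ g)
  have e2 : θ₁ g * (s * (θ₂ h - θ₁ h)) = s * (θ₂ h - θ₁ h) := unit_mul (h₁.inv g) (hθ h)
  linear_combination e1 + e2

lemma ka_zero_iff {y : ZMod 8} (h : ka y = 0) : y = 0 := by revert y; decide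

/-- **Uniqueness.** -/
theorem VG.unique {n : ℕ} (h : PD G n) {θ₁ θ₂ : G → ZMod 8} (h₁ : Ch θ₁) (h₂ : Ch θ₂)
    (hv₁ : VG θ₁) (hv₂ : VG θ₂) : θ₁ = θ₂ := by
  let li : ZMod 2 → ZMod 8 := fun x => if x = 0 then 0 else 1
  have hli : ∀ x, 4 * li x = io x := by decide
  have hstart : ∀ {θ : G → ZMod 8}, Ch θ → ∀ {b : G → ZMod 2}, Hm b →
      ∀ g h, 2 * (2 * df θ (fun g => li (b g)) g h) = 0 := by
    intro θ hθ b hb g h
    have e1 : θ g * io (b h) = io (b h) := unit_mul (hθ.inv g) (two_io _)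
    have e2 := hb.2 g h
    have e3 := io_add (b g) (b h)
    have e4 := two_io (b g)
    have e5 := two_io (b h)
    have e6 := hli (b g)
    have e7 := hli (b h)
    have e8 := hli (b (g * h))
    rw [e2, e3] at e8
    simp only [df]
    rw [e2]
    linear_combination e6 + θ g * e7 + e1 - e8
  have hlicont : ∀ {b : G → ZMod 2}, Hm b → Continuous fun g => li (b g) := fun hb =>
    (continuous_of_discreteTopology (f := li)).comp hb.1
  -- modulo `4`
  have hθ2 : ∀ g, 2 * (2 * (θ₂ g - θ₁ g)) = 0 := fun g => by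
    have := unit_sub (h₂.inv g) (h₁.inv g)
    linear_combination this
  have hmod4 : ∀ g, 2 * (θ₂ g - θ₁ g) = 0 := by
    by_contra hcon
    push Not at hcon
    obtain ⟨g, hg⟩ := hcon
    obtain ⟨b, hb, hnb⟩ := h.nd _ (hm_ka h₁ h₂ hθ2) ⟨g, fun h => hg (ka_zero_iff h)⟩
    obtain ⟨c₁, hc₁, h3, h4⟩ := hv₁ 2 (Or.inr rfl) _ (hlicont hb) (hstart h₁ hb)
    obtain ⟨c₂, hc₂, h5, h6⟩ := hv₂ 2 (Or.inr rfl) _ (hlicont hb) (hstart h₂ hb)
    refine hnb (cmp h₁ hθ2 hc₁ hc₂ h4 h6 (fun g => ?_) fun g => ?_)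
    · linear_combination h5 g - h3 g
    · have := h5 g
      have := hli (b g)
      linear_combination h5 g + this
  -- modulo `8`
  have hθ1 : ∀ g, 2 * (1 * (θ₂ g - θ₁ g)) = 0 := fun g => by rw [one_mul]; exact hmod4 g
  funext g
  by_contra hg
  obtain ⟨b, hb, hnb⟩ := h.nd _ (hm_ka h₁ h₂ hθ1) ⟨g, fun h => hg (by
    have := ka_zero_iff h
    rw [one_mul, sub_eq_zero] at this
    exact this.symm)⟩
  obtain ⟨c, hc, h3, h4⟩ := hv₁ 2 (Or.inr rfl) _ (hlicont hb) (hstart h₁ hb)
  obtain ⟨c₁, hc₁, h5, h6⟩ := hv₁ 1 (Or.inl rfl) c hc (fun g h => by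
    rw [one_mul]; exact h4 g h)
  obtain ⟨c₂, hc₂, h7, h8⟩ := hv₂ 1 (Or.inl rfl) c hc (fun g h => by
    have e1 := h4 g h
    have e2 := hmod4 g
    simp only [df] at *
    linear_combination e1 + c h * e2)
  refine hnb (cmp h₁ hθ1 hc₁ hc₂ h6 h8 (fun g => ?_) fun g => ?_)
  · linear_combination h7 g - h5 g
  · have := hli (b g)
    linear_combination 2 * h7 g + h3 g + this

end Ch

section Two

variable {G : Type*} [Group G] [TopologicalSpace G] [IsTopologicalGroup G]
variable {a : G → ZMod 2} (ha : Hm a) {t : G} (ht : a t = 1)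

include ht in
/-- Restriction to a subgroup of index two. -/
theorem VG.res {n : ℕ} (h : PD G n) {θ : G → ZMod 8} (hθ : Ch θ) (hv : VG θ) :
    VG (fun u : kerS ha => θ u) := by
  intro s hs c hc hD
  have hac := ha.1
  have hθu : Ch (fun u : kerS ha => θ u) := hθ.comp (kerS ha).subtype continuous_subtype_val
  set θ' : kerS ha → ZMod 8 := fun u => θ u with hθ'
  -- the cocycle
  let f : kerS ha → kerS ha → ZMod 2 := fun u v => ka (s * df θ' c u v)
  have hio : ∀ u v, io (f u v) = s * df θ' c u v := fun u v => io_ka (hD u v)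
  have hf : Zc f := by
    constructor
    · have h1 : Continuous fun x : kerS ha × kerS ha => s * df θ' c x.1 x.2 := by
        simp only [df]
        have h2 := hθu.cont
        fun_prop
      exact (continuous_of_discreteTopology (f := ka)).comp h1
    · intro g h k
      apply io_inj
      rw [io_add, io_add, hio, hio, hio, hio]
      have e1 := df_cocycle hθu c g h k
      have e2 : θ' g * (s * df θ' c h k) = s * df θ' c h k := unit_mul (hθu.inv g) (hD h k)
      linear_combination s * e1 + e2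
  -- the transfer of `c`
  let F : ZMod 2 → G → ZMod 8 := fun j g => θ (rep t (j + a g)) * c (uu ha ht j g)
  let C : G → ZMod 8 := fun g => F 0 g + F 1 g
  have hFc : ∀ j, Continuous (F j) := by
    intro j
    have e : Continuous fun g : G => j + a g := by fun_prop
    exact (hθ.cont.comp ((continuous_rep t).comp e)).mul (hc.comp (continuous_uu ha ht j))
  have hC : Continuous C := (hFc 0).add (hFc 1)
  have hterm : ∀ i g h, F (i + a h) g + θ g * F i h - F i (g * h) =
      θ (rep t (i + a h + a g)) * df θ' c (uu ha ht (i + a h) g) (uu ha ht i h) := by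
    intro i g h
    have e1 : i + a (g * h) = i + a h + a g := by rw [ha.2]; ring
    have e2 : θ g * θ (rep t (i + a h)) =
        θ (rep t (i + a h + a g)) * θ' (uu ha ht (i + a h) g) := by
      rw [hθ', ← hθ.mul, ← hθ.mul]
      congr 1
      simp only [uu]
      group
    simp only [F, df, e1, uu_mul]
    linear_combination c (uu ha ht i h) * e2
  have hDC : ∀ g h, s * df θ C g h = io (cor2 ha ht f g h) := by
    intro g h
    have e1 := sum_two' (fun j => F j g) (a h)
    have e2 := hterm 0 g h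
    have e3 := hterm 1 g h
    have e4 := hD (uu ha ht (0 + a h) g) (uu ha ht 0 h)
    have e5 := hD (uu ha ht (1 + a h) g) (uu ha ht 1 h)
    have e6 := unit_mul (hθ.inv (rep t (0 + a h + a g))) e4
    have e7 := unit_mul (hθ.inv (rep t (1 + a h + a g))) e5
    simp only [cor2]
    rw [io_add, hio, hio]
    have e8 : df θ C g h = (F (0 + a h) g + θ g * F 0 h - F 0 (g * h)) +
        (F (1 + a h) g + θ g * F 1 h - F 1 (g * h)) := by
      simp only [df, C]
      linear_combination -e1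
    rw [e8, e2, e3]
    linear_combination e6 + e7
  obtain ⟨C', hC', h1, h2⟩ := hv s hs C hC (fun g h => by rw [hDC]; exact two_io _)
  -- the coboundary
  have hBd : Bd (cor2 ha ht f) := by
    refine ⟨fun g => ka (s * (C' g - C g)), cont_ka hC' hC s,
      fun g h => io_inj ?_⟩
    beta_reduce
    rw [← hDC, io_add, io_add, io_ka (h1 g), io_ka (h1 h), io_ka (h1 (g * h))]
    have e1 := h2 g h
    have e2 : θ g * (s * (C' h - C h)) = s * (C' h - C h) := unit_mul (hθ.inv g) (h1 h)
    simp only [df] at *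
    linear_combination e1 - e2 - h1 g - h1 h
  obtain ⟨ξ, hξ, h3⟩ := h.inj_cor ha ht hf hBd
  obtain ⟨m, hm⟩ := exists_lift hs
  have hmc : Continuous fun u => m (ξ u) := (continuous_of_discreteTopology (f := m)).comp hξ
  refine ⟨fun u => c u + m (ξ u), hc.add hmc, fun u => ?_, fun u v => ?_⟩
  · have := two_io (ξ u)
    rw [← hm] at this
    linear_combination this
  · have e1 := hio u v
    have e2 := congrArg io (h3 u v)
    rw [io_add, io_add, e1] at e2
    have e3 := hm (ξ u)
    have e4 := hm (ξ v)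
    have e5 := hm (ξ (u * v))
    have e6 : θ' u * io (ξ v) = io (ξ v) := unit_mul (hθu.inv u) (two_io _)
    have e7 := two_io (ξ u)
    have e8 := two_io (ξ v)
    simp only [df] at *
    linear_combination e2 + e3 + θ' u * e4 - e5 + e6 + e7 + e8

end Two

end Pool.Agent.K7.H77.Dem
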