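import Pool.Agent.K7.H77.Dem.Main

set_option autoImplicit false
set_option linter.unusedSectionVars false

/-!
# From self-similar actions to virtual endomorphisms
-/

namespace Pool.Agent.K7.H77.Dem

section Tree

variable {G : Type*} [Group G] [TopologicalSpace G] [IsTopologicalGroup G] [CompactSpace G]

/-- If every homomorphism from a subgroup of index two to `G` has a nontrivial invariant normal
subgroup, then `G` is not self-similar of index two. -/
theorem not_selfSimilar
    (h : ∀ {a : G → ZMod 2} (ha : Hm a), (∃ g, a g ≠ 0) → ∀ φ : kerS ha →* G, Continuous φ →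
      ∃ N : Subgroup G, N.Normal ∧ N ≠ ⊥ ∧ ∀ n ∈ N, ∃ hn : n ∈ kerS ha, φ ⟨n, hn⟩ ∈ N) :
    ¬ IsSelfSimilarOfIndex 2 G := by
  rintro ⟨act, h1, hmul, hlen, -, hss, hfaith, hcont, htrans⟩
  have hcancel : ∀ g w, act g⁻¹ (act g w) = w := fun g w => by
    rw [← hmul, inv_mul_cancel, h1]
  have hcancel' : ∀ g w, act g (act g⁻¹ w) = w := fun g w => by
    rw [← hmul, mul_inv_cancel, h1]
  have hinj : ∀ g w w', act g w = act g w' → w = w' := fun g w w' hw => by
    rw [← hcancel g w, hw, hcancel]
  have hnil : ∀ g, act g [] = [] := fun g => List.length_eq_zero_iff.1 (by rw [hlen]; rfl)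
  have hf2 : ∀ y : Fin 2, y = 0 ∨ y = 1 := by decide
  have hone : ∀ g (x : Fin 2), act g [x] = [0] ∨ act g [x] = [1] := by
    intro g x
    obtain ⟨y, hy⟩ := List.length_eq_one_iff.1 (show (act g [x]).length = 1 by rw [hlen]; rfl)
    rw [hy]
    rcases hf2 y with rfl | rfl
    · exact Or.inl rfl
    · exact Or.inr rfl
  have h01 : ([0] : List (Fin 2)) ≠ [1] := by decide
  classical
  let a : G → ZMod 2 := fun g => if act g [0] = [0] then 0 else 1
  have ha0 : ∀ g, a g = 0 ↔ act g [0] = [0] := by
    intro g
    simp only [a]
    split_ifs with hg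
    · simp [hg]
    · simp [hg]
  have hamul : ∀ g k, a (g * k) = a g + a k := by
    intro g k
    have h11 : (1 : ZMod 2) + 1 = 0 := by decide
    have hg1 : act g [0] = [0] → act g [1] = [1] := fun hg => by
      rcases hone g 1 with h3 | h3
      · exact absurd (hinj g _ _ (hg.trans h3.symm)) h01
      · exact h3
    have hg2 : act g [0] = [1] → act g [1] = [0] := fun hg => by
      rcases hone g 1 with h3 | h3
      · exact h3
      · exact absurd (hinj g _ _ (hg.trans h3.symm)) h01
    simp only [a, hmul]
    rcases hone k 0 with hk | hk <;> rcases hone g 0 with hg | hg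
    · simp [hk, hg]
    · simp [hk, hg]
    · simp [hk, hg, hg1 hg]
    · simp [hk, hg, hg2 hg, h11]
  let V : Subgroup G :=
    { carrier := {g | act g [0] = [0]}
      mul_mem' := by
        intro g k hg hk
        change act (g * k) [0] = [0]
        rw [hmul, show act k [0] = [0] from hk, show act g [0] = [0] from hg]
      one_mem' := h1 _
      inv_mem' := by
        intro g hg
        change act g⁻¹ [0] = [0]
        have h3 := hcancel g [0]
        rw [show act g [0] = [0] from hg] at h3
        exact h3 }
  have ha : Hm a := ⟨continuous_of_vanish hamul V (hcont [0]) fun v hv => (ha0 v).2 hv, hamul⟩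
  obtain ⟨t, ht⟩ := htrans 0 1
  have hat : a t ≠ 0 := fun h3 => h01 (((ha0 t).1 h3).symm.trans ht)
  -- the virtual endomorphism
  have hex : ∀ g : kerS ha, ∃ k : G, ∀ w, act g (0 :: w) = 0 :: act k w := by
    intro g
    obtain ⟨y, k, hk⟩ := hss g 0
    have hg : act (g : G) [0] = [0] := (ha0 _).1 g.2
    have h3 := hk []
    rw [hg, hnil] at h3
    have hy : (0 : Fin 2) = y := by simpa using h3
    subst hy
    exact ⟨k, hk⟩
  choose F hF using hex
  have huniq : ∀ k k' : G, (∀ w, act k w = act k' w) → k = k' := by
    intro k k' hk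
    have h3 := hfaith (k'⁻¹ * k) fun w => by rw [hmul, hk, hcancel]
    exact (inv_mul_eq_one.1 h3).symm
  let φ : kerS ha →* G := MonoidHom.mk' F (by
    intro g k
    refine huniq _ _ fun w => ?_
    have h3 := hF (g * k) w
    rw [Subgroup.coe_mul, hmul, hF k, hF g] at h3
    have h4 := (List.cons.inj h3).2
    rw [hmul, ← h4])
  have hφ : ∀ (g : kerS ha) w, act g (0 :: w) = 0 :: act (φ g) w := hF
  have hclosed : ∀ w, IsClosed {g : G | act g w = w} := by
    intro w
    let St : Subgroup G :=
      { carrier := {g | act g w = w}
        mul_mem' := by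
          intro g k hg hk
          change act (g * k) w = w
          rw [hmul, show act k w = w from hk, show act g w = w from hg]
        one_mem' := h1 _
        inv_mem' := by
          intro g hg
          change act g⁻¹ w = w
          have h3 := hcancel g w
          rw [show act g w = w from hg] at h3
          exact h3 }
    exact Subgroup.isClosed_of_isOpen St (hcont w)
  have hφc : Continuous φ := by
    refine continuous_of_continuousAt_one φ ?_
    rw [ContinuousAt, map_one, Filter.tendsto_def]
    intro O hO
    obtain ⟨O', hO'O, hO', h1O⟩ := mem_nhds_iff.1 hO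
    obtain ⟨u, hu⟩ := hO'.isClosed_compl.isCompact.elim_finite_subfamily_closed
      (fun w : List (Fin 2) => {g : G | act g w = w}) hclosed (by
        ext g
        simp only [Set.mem_inter_iff, Set.mem_compl_iff, Set.mem_iInter, Set.mem_empty_iff_false,
          iff_false, not_and, not_forall]
        intro hg
        by_contra hcon
        push Not at hcon
        exact hg (hfaith g hcon ▸ h1O))
    have h3 : IsOpen (⋂ w ∈ u, {g : kerS ha | act (g : G) (0 :: w) = 0 :: w}) :=
      isOpen_biInter_finset fun w _ => (hcont (0 :: w)).preimage continuous_subtype_val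
    refine Filter.mem_of_superset (h3.mem_nhds ?_) fun g hg => ?_
    · simp only [Set.mem_iInter]
      intro w _
      exact h1 _
    · apply hO'O
      by_contra hcon
      have : φ g ∈ (O'ᶜ ∩ ⋂ w ∈ u, {g : G | act g w = w}) := by
        refine ⟨hcon, ?_⟩
        simp only [Set.mem_iInter] at hg ⊢
        intro w hw
        have h4 : act (g : G) (0 :: w) = 0 :: w := hg w hw
        rw [hφ] at h4
        exact (List.cons.inj h4).2
      rw [hu] at this
      exact this
  obtain ⟨N, hN, hne, hinv⟩ := h ha ⟨t, hat⟩ φ hφc
  have key : ∀ k, ∀ w : List (Fin 2), w.length = k → ∀ n ∈ N, act n w = w := by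
    intro k
    induction k with
    | zero =>
      intro w hw n _
      rw [List.length_eq_zero_iff.1 hw, hnil]
    | succ k ih =>
      intro w hw n hn
      have hzero : ∀ v : List (Fin 2), v.length = k → ∀ n ∈ N, act n (0 :: v) = 0 :: v := by
        intro v hv n hn
        obtain ⟨hn1, hn2⟩ := hinv n hn
        have h3 := hφ ⟨n, hn1⟩ v
        rw [h3, ih v hv _ hn2]
      obtain ⟨x, v, rfl⟩ : ∃ x v, w = x :: v := by
        cases w with
        | nil => simp at hw
        | cons x v => exact ⟨x, v, rfl⟩
      have hv : v.length = k := by simpa using hw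
      rcases hf2 x with rfl | rfl
      · exact hzero v hv n hn
      · obtain ⟨y, s, hs⟩ := hss t 0
        have h3 := hs []
        rw [ht, hnil] at h3
        have hy : (1 : Fin 2) = y := by simpa using h3
        subst hy
        have h4 : act t (0 :: act s⁻¹ v) = 1 :: v := by rw [hs, hcancel']
        have h5 := hzero (act s⁻¹ v) (by rw [hlen, hv]) (t⁻¹ * n * t) (by
          have := hN.conj_mem n hn t⁻¹
          simpa using this)
        rw [← h4]
        have h6 : n * t = t * (t⁻¹ * n * t) := by group
        rw [← hmul, h6, hmul, h5]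
  apply hne
  rw [Subgroup.eq_bot_iff_forall]
  exact fun n hn => hfaith n fun w => key _ w rfl n hn

end Tree

end Pool.Agent.K7.H77.Dem
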