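import Pool.Agent.K7.H77.Dem.Closed

set_option autoImplicit false
set_option linter.unusedSectionVars false

/-!
# Homomorphisms from subgroups of index two
-/

namespace Pool.Agent.K7.H77.Dem

section Virt

variable {G : Type*} [Group G] [TopologicalSpace G] [IsTopologicalGroup G]
variable [CompactSpace G] [TotallyDisconnectedSpace G] [T2Space G]
variable {a : G → ZMod 2} (ha : Hm a) (φ : kerS ha →* G)

lemma isClosed_kerS : IsClosed ((kerS ha : Subgroup G) : Set G) := by
  have : ((kerS ha : Subgroup G) : Set G) = a ⁻¹' {0} := rfl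
  rw [this]
  exact (isClosed_discrete _).preimage ha.1

lemma isOpen_kerS : IsOpen ((kerS ha : Subgroup G) : Set G) := by
  have : ((kerS ha : Subgroup G) : Set G) = a ⁻¹' {0} := rfl
  rw [this]
  exact (isOpen_discrete _).preimage ha.1

/-- If `φ` is not injective, then its kernel contains a nontrivial normal subgroup of `G`. -/
theorem core_of_not_injective (h2 : P2 G) (h : PD G 3) (hφ : Continuous φ) {t : G} (ht : a t = 1)
    (hinj : ¬ Function.Injective φ) :
    ∃ N : Subgroup G, N.Normal ∧ N ≠ ⊥ ∧ ∀ n ∈ N, ∃ hn : n ∈ kerS ha, φ ⟨n, hn⟩ = 1 := by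
  set K : Subgroup G := φ.ker.map (kerS ha).subtype with hK
  have hmem : ∀ g, g ∈ K ↔ ∃ hn : g ∈ kerS ha, φ ⟨g, hn⟩ = 1 := by
    intro g
    constructor
    · rintro ⟨x, hx, rfl⟩
      exact ⟨x.2, hx⟩
    · rintro ⟨hn, h1⟩
      exact ⟨⟨g, hn⟩, h1, rfl⟩
  have hKcl : IsClosed (K : Set G) := by
    rw [hK, Subgroup.coe_map]
    have h1 : IsClosed ((φ.ker : Subgroup (kerS ha)) : Set (kerS ha)) := by
      have : ((φ.ker : Subgroup (kerS ha)) : Set (kerS ha)) = φ ⁻¹' {1} := rfl
      rw [this]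
      exact isClosed_singleton.preimage hφ
    exact (isClosed_kerS ha).isClosedEmbedding_subtypeVal.isClosedMap _ h1
  have hKH : ∀ {g}, g ∈ K → a g = 0 := fun {g} hg => ((hmem g).1 hg).1
  have hconj : ∀ {g x : G}, g ∈ K → a x = 0 → x * g * x⁻¹ ∈ K := by
    intro g x hg hx
    obtain ⟨hn, h1⟩ := (hmem g).1 hg
    refine (hmem _).2 ⟨by rw [mem_kerS, ha.2, ha.2, ha.inv, hx, hKH hg]; decide, ?_⟩
    have e : (⟨x * g * x⁻¹, by rw [mem_kerS, ha.2, ha.2, ha.inv, hx, hKH hg]; decide⟩ : kerS ha) =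
        ⟨x, hx⟩ * ⟨g, hn⟩ * (⟨x, hx⟩)⁻¹ := rfl
    rw [e, map_mul, map_mul, h1, mul_one, ← map_mul, mul_inv_cancel, map_one]
  have hx : ∀ x : ZMod 2, x = 0 ∨ x = 1 := by decide
  refine ⟨K.normalCore, inferInstance, fun hbot => ?_, fun n hn => (hmem n).1 (K.normalCore_le hn)⟩
  -- a nontrivial element of the kernel
  obtain ⟨k, hk, hk1⟩ : ∃ k ∈ K, k ≠ 1 := by
    by_contra hcon
    push Not at hcon
    refine hinj ((injective_iff_map_eq_one φ).2 fun x hx => ?_)
    exact Subtype.ext (hcon x ((hmem _).2 ⟨x.2, hx⟩))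
  have hin : ∀ g : G, (∀ b : G, b * g * b⁻¹ ∈ K) → g = 1 := by
    intro g hg
    have : g ∈ K.normalCore := hg
    rw [hbot] at this
    exact this
  have hno1 : t * k * t⁻¹ ∉ K := by
    intro h1
    refine hk1 (hin k fun b => ?_)
    rcases hx (a b) with hb | hb
    · exact hconj hk hb
    · have h3 := hconj (x := b * t⁻¹) h1 (by rw [ha.2, ha.inv, ht, hb]; decide)
      have e : b * t⁻¹ * (t * k * t⁻¹) * (b * t⁻¹)⁻¹ = b * k * b⁻¹ := by group
      rw [e] at h3
      exact h3
  have hno2 : t⁻¹ * k * t ∉ K := by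
    intro h1
    refine hk1 (hin k fun b => ?_)
    rcases hx (a b) with hb | hb
    · exact hconj hk hb
    · have h3 := hconj (x := b * t) h1 (by rw [ha.2, ht, hb]; decide)
      have e : b * t * (t⁻¹ * k * t) * (b * t)⁻¹ = b * k * b⁻¹ := by group
      rw [e] at h3
      exact h3
  have hk' : a (t * k * t⁻¹) = 0 := by rw [ha.2, ha.2, ha.inv, ht, hKH hk]; decide
  have hk'' : a (t⁻¹ * k * t) = 0 := by rw [ha.2, ha.2, ha.inv, ht, hKH hk]; decide
  have hcomm : k * (t * k * t⁻¹) * k⁻¹ * (t * k * t⁻¹)⁻¹ = 1 := by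
    refine hin _ fun b => ?_
    have hc1 : k * (t * k * t⁻¹) * k⁻¹ * (t * k * t⁻¹)⁻¹ ∈ K := by
      have h3 := K.mul_mem hk (hconj (K.inv_mem hk) hk')
      have e : k * (t * k * t⁻¹ * k⁻¹ * (t * k * t⁻¹)⁻¹) =
        k * (t * k * t⁻¹) * k⁻¹ * (t * k * t⁻¹)⁻¹ := by group
      rw [e] at h3
      exact h3
    have hc2 : t⁻¹ * (k * (t * k * t⁻¹) * k⁻¹ * (t * k * t⁻¹)⁻¹) * t ∈ K := by
      have h3 := K.mul_mem (hconj hk hk'') (K.inv_mem hk)
      have e : t⁻¹ * k * t * k * (t⁻¹ * k * t)⁻¹ * k⁻¹ =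
        t⁻¹ * (k * (t * k * t⁻¹) * k⁻¹ * (t * k * t⁻¹)⁻¹) * t := by group
      rw [e] at h3
      exact h3
    rcases hx (a b) with hb | hb
    · exact hconj hc1 hb
    · have h3 := hconj (x := b * t) hc2 (by rw [ha.2, ht, hb]; decide)
      have e : b * t * (t⁻¹ * (k * (t * k * t⁻¹) * k⁻¹ * (t * k * t⁻¹)⁻¹) * t) * (b * t)⁻¹ =
        b * (k * (t * k * t⁻¹) * k⁻¹ * (t * k * t⁻¹)⁻¹) * b⁻¹ := by group
      rw [e] at h3
      exact h3
  have hcomm' : k * (t * k * t⁻¹) = (t * k * t⁻¹) * k := by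
    have := hcomm
    rw [mul_inv_eq_one, mul_inv_eq_iff_eq_mul] at this
    exact this
  rcases h.commute h2 hcomm' with h3 | h3
  · -- `k` lies in the closed subgroup generated by `t k t⁻¹`
    have hcl : IsClosed ((K.map (MulAut.conj t).toMonoidHom : Subgroup G) : Set G) := by
      rw [Subgroup.coe_map]
      have hc : Continuous fun g : G => t * g * t⁻¹ := by fun_prop
      exact hKcl.isCompact.image hc |>.isClosed
    have hle : (Subgroup.zpowers (t * k * t⁻¹)).topologicalClosure ≤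
        K.map (MulAut.conj t).toMonoidHom := by
      refine Subgroup.topologicalClosure_minimal _ ?_ hcl
      rw [Subgroup.zpowers_le]
      exact ⟨k, hk, rfl⟩
    obtain ⟨y, hy, hyk⟩ := hle h3
    refine hno2 ?_
    have hyk' : t * y * t⁻¹ = k := hyk
    rw [← hyk']
    have e : t⁻¹ * (t * y * t⁻¹) * t = y := by group
    rw [e]
    exact hy
  · have hle : (Subgroup.zpowers k).topologicalClosure ≤ K := by
      refine Subgroup.topologicalClosure_minimal _ ?_ hKcl
      rw [Subgroup.zpowers_le]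
      exact hk
    exact hno1 (hle h3)

/-- If `φ` is injective, then its image has index two. -/
theorem range_of_injective (h2 : P2 G) (h : PD G 3) (hφ : Continuous φ) {t : G} (ht : a t = 1)
    (hinj : Function.Injective φ) :
    ∃ (b : G → ZMod 2) (_ : Hm b), (∃ g, b g ≠ 0) ∧ ∀ g, g ∈ φ.range ↔ b g = 0 := by
  have hcomp : CompactSpace (kerS ha) := isCompact_iff_compactSpace.1 (isClosed_kerS ha).isCompact
  have hcl : IsClosed ((φ.range : Subgroup G) : Set G) := by
    rw [MonoidHom.coe_range]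
    exact (isCompact_range hφ).isClosed
  have hPD : PD (kerS ha) 4 := PD.step (n := 2) h ha ⟨t, by rw [ht]; decide⟩
  let e : kerS ha ≃* φ.range := MonoidHom.ofInjective hinj
  have he : Continuous e := Continuous.subtype_mk hφ _
  have he' : Continuous e.symm :=
    Continuous.continuous_symm_of_equiv_compact_to_t2 (f := e.toEquiv) he
  by_cases hopen : IsOpen ((φ.range : Subgroup G) : Set G)
  · have h3 := h.open h2 _ hopen
    have h4 : PD φ.range 4 := hPD.congr e.symm he' he
    have h5 : 2 ^ (φ.range.index + 2) = 2 ^ 4 := h3.card.symm.trans h4.card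
    have h6 : φ.range.index = 2 := by
      have := Nat.pow_right_injective le_rfl h5
      omega
    refine ⟨homOf φ.range, hm_homOf h6 hopen, ?_, fun g => homOf_eq_zero.symm⟩
    by_contra hcon
    push Not at hcon
    have : φ.range = ⊤ := by
      rw [Subgroup.eq_top_iff']
      exact fun g => homOf_eq_zero.1 (hcon g)
    rw [this, Subgroup.index_top] at h6
    exact absurd h6 (by norm_num)
  · exfalso
    -- a nonzero homomorphism on `H`
    obtain ⟨x, hx⟩ : ∃ x : {x : kerS ha → ZMod 2 // Hm x}, ∃ g, x.1 g ≠ 0 := by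
      by_contra hcon
      push Not at hcon
      have : Subsingleton {x : kerS ha → ZMod 2 // Hm x} :=
        ⟨fun x y => Subtype.ext (funext fun g => by rw [hcon, hcon])⟩
      have h3 := hPD.card
      have h4 : Nat.card {x : kerS ha → ZMod 2 // Hm x} ≤ 1 := by
        exact Finite.card_le_one_iff_subsingleton.2 this
      omega
    obtain ⟨y, hy, hxy⟩ := hPD.nd x.1 x.2 hx
    refine hxy ?_
    have hx' : Hm (fun g : φ.range => x.1 (e.symm g)) := x.2.comp e.symm.toMonoidHom he'
    have hy' : Hm (fun g : φ.range => y (e.symm g)) := hy.comp e.symm.toMonoidHom he'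
    have h3 := (h.vanish h2 hcl hopen hx' hy').comp e.toMonoidHom he
    simpa using h3

end Virt

end Pool.Agent.K7.H77.Dem
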